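import Pool.Agent.Lib.MP_4a8162_co.FX.Main
import Pool.Agent.Lib.MP_4a8162_co.ChfDual
import Pool.Agent.Lib.MP_4a8162_co.MatBase

set_option autoImplicit false

/-!
# MP_4a8162_co, FLOW ROOTS OF EXPANDERS: the characteristic polynomial of a bond matroid
-/

namespace Pool.Agent.Lib.MP_4a8162_co.FX

open Finset
open scoped Classical

/-- the number of components -/
theorem cc_quot {V E : Type} [Fintype V] [Fintype E] (p : E → V × V) (A : Finset E) :
    Pool.Agent.Lib.MP_4a8162_co.cc p (A : Set E) = (cc p A).card := by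
  unfold Pool.Agent.Lib.MP_4a8162_co.cc
  have hr : ∀ a b : V, Pool.Agent.Lib.MP_4a8162_co.edgeRel p (A : Set E) a b → cl p A a = cl p A b := by
    rintro a b ⟨e, he, hp⟩
    refine (cl_eq_of_mem (mem_cl.2 (Relation.EqvGen.rel a b ⟨e, he, hp⟩))).symm
  let f : Quot (Pool.Agent.Lib.MP_4a8162_co.edgeRel p (A : Set E)) → {C : Finset V // C ∈ cc p A} :=
    Quot.lift (fun v => ⟨cl p A v, mem_cc.2 ⟨v, rfl⟩⟩) (fun a b h => Subtype.ext (hr a b h))
  have hf : Function.Bijective f := by
    constructor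
    · intro a b
      induction a using Quot.ind with | _ a => ?_
      induction b using Quot.ind with | _ b => ?_
      intro h
      have h1 : cl p A a = cl p A b := congrArg Subtype.val h
      have h2 : b ∈ cl p A a := by rw [h1]; exact self_mem_cl p A b
      exact Quot.eqvGen_sound (mem_cl.1 h2)
    · rintro ⟨C, hC⟩
      obtain ⟨v, rfl⟩ := mem_cc.1 hC
      exact ⟨Quot.mk _ v, rfl⟩
  rw [Nat.card_eq_of_bijective f hf, Nat.card_eq_fintype_card, Fintype.card_coe]

private theorem mb_card {n : ℕ} (v : ℕ → Fin n → ℚ) {I : Set ℕ} (hI : I.Finite)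
    (h : LinearIndepOn ℚ v I) :
    Module.finrank ℚ (Submodule.span ℚ (v '' I)) = I.ncard := by
  have := hI.fintype
  have h1 := finrank_span_eq_card (R := ℚ) (b := fun x : I => v x) h
  rw [Set.image_eq_range, h1, ← Nat.card_eq_fintype_card, Nat.card_coe_set_eq]

private theorem mb_span {n : ℕ} (v : ℕ → Fin n → ℚ) {I J : Set ℕ} (hI : LinearIndepOn ℚ v I)
    (h : ∀ e ∈ J, LinearIndepOn ℚ v (insert e I) → e ∈ I) :
    Submodule.span ℚ (v '' J) ≤ Submodule.span ℚ (v '' I) := by
  rw [Submodule.span_le]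
  rintro _ ⟨e, he, rfl⟩
  by_cases heI : e ∈ I
  · exact Submodule.subset_span ⟨e, heI, rfl⟩
  · by_contra hx
    exact heI (h e he (LinearIndepOn.insert hI hx))

/-- rank of a set of edges -/
theorem eRk_graphic {m : ℕ} (G : Matroid ℕ) (hfin : G.Finite) (ends : ℕ → Fin m × Fin m)
    (hG : ∀ I : Set ℕ, G.Indep I ↔ (I ⊆ G.E ∧ LinearIndependent ℚ
      (fun x : I => (Pi.single (ends x).1 (1 : ℚ) - Pi.single (ends x).2 (1 : ℚ) : Fin m → ℚ))))
    (X : Set ℕ) (hX : X ⊆ G.E) :
    G.eRk X = ((m - Pool.Agent.Lib.MP_4a8162_co.cc ends X : ℕ) : ℕ∞) := by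
  obtain ⟨I, hI⟩ := G.exists_isBasis X hX
  obtain ⟨hIE, hIi⟩ := (hG I).1 hI.indep
  have hfI : I.Finite := hfin.ground_finite.subset hIE
  have hfX : X.Finite := hfin.ground_finite.subset hX
  rw [hI.eRk_eq_encard, ← hfI.cast_ncard_eq]
  congr 1
  let v : ℕ → Fin m → ℚ := fun i => evec ℚ (ends i)
  have hIi' : LinearIndepOn ℚ v I := hIi
  have h1 := finrank_edges ℚ ends X hfX
  have hv : (Set.range fun x : X => evec ℚ (ends x)) = v '' X := by
    rw [Set.image_eq_range]
  have h2 : Submodule.span ℚ (v '' X) = Submodule.span ℚ (v '' I) := by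
    refine le_antisymm (mb_span v hIi' fun e he h => ?_)
      (Submodule.span_mono (Set.image_mono hI.subset))
    exact hI.mem_of_insert_indep he ((hG _).2 ⟨Set.insert_subset (hX he) hIE, h⟩)
  rw [hv, h2, mb_card v hfI hIi'] at h1
  omega

/-- the number of components does not change when the edges are indexed differently -/
theorem cc_map {m : ℕ} (ends : ℕ → Fin m × Fin m) (E : Finset ℕ) (A : Finset {i // i ∈ E}) :
    Pool.Agent.Lib.MP_4a8162_co.cc ends ((A.map (Function.Embedding.subtype _) : Finset ℕ) : Set ℕ) =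
      Pool.Agent.Lib.MP_4a8162_co.cc (fun i : {i // i ∈ E} => ends i) (A : Set {i // i ∈ E}) := by
  unfold Pool.Agent.Lib.MP_4a8162_co.cc
  have : Pool.Agent.Lib.MP_4a8162_co.edgeRel ends
      ((A.map (Function.Embedding.subtype _) : Finset ℕ) : Set ℕ) =
      Pool.Agent.Lib.MP_4a8162_co.edgeRel (fun i : {i // i ∈ E} => ends i)
        (A : Set {i // i ∈ E}) := by
    funext a b
    apply propext
    constructor
    · rintro ⟨e, he, hp⟩
      rw [Finset.mem_coe, Finset.mem_map] at he
      obtain ⟨e', he', rfl⟩ := he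
      exact ⟨e', he', hp⟩
    · rintro ⟨e, he, hp⟩
      exact ⟨e, by rw [Finset.mem_coe, Finset.mem_map]; exact ⟨e, he, rfl⟩, hp⟩
  rw [this]

/-- the characteristic polynomial of the bond matroid in terms of the components -/
theorem char_eq {m : ℕ} (M : Matroid ℕ) (hfin : M.Finite) (ends : ℕ → Fin m × Fin m)
    (hG : ∀ I : Set ℕ, M.dual.Indep I ↔ (I ⊆ M.E ∧ LinearIndependent ℚ
      (fun x : I => (Pi.single (ends x).1 (1 : ℚ) - Pi.single (ends x).2 (1 : ℚ) : Fin m → ℚ))))
    (E : Finset ℕ) (hE : (E : Set ℕ) = M.E) (x : ℂ) :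
    x ^ m * ∑ X ∈ E.powerset, (-1 : ℂ) ^ X.card * x ^ (rks M M.E - rks M (X : Set ℕ)) =
      ∑ A : Finset {i // i ∈ E}, x ^ A.card * (-1) ^ (E.card - A.card) *
        x ^ (cc (fun i : {i // i ∈ E} => ends i) A).card := by
  have hd : M.dual.Finite := inferInstance
  have hG' : ∀ I : Set ℕ, M.dual.Indep I ↔ (I ⊆ M.dual.E ∧ LinearIndependent ℚ
      (fun x : I => (Pi.single (ends x).1 (1 : ℚ) - Pi.single (ends x).2 (1 : ℚ) : Fin m → ℚ))) := by
    intro I
    rw [Matroid.dual_ground]
    exact hG I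
  have hr := eRk_graphic M.dual hd ends hG'
  obtain ⟨r, hrr⟩ : ∃ r : ℕ, M.dual.eRank = (r : ℕ∞) := by
    have h1 := hr M.dual.E subset_rfl
    exact ⟨_, (M.dual.eRk_ground).symm.trans h1⟩
  -- the rank of a set
  have hrank : ∀ X : Finset ℕ, X ⊆ E → rks M (X : Set ℕ) + r =
      (m - Pool.Agent.Lib.MP_4a8162_co.cc ends ((E \ X : Finset ℕ) : Set ℕ)) + X.card := by
    intro X hX
    have hX' : (X : Set ℕ) ⊆ M.dual.E := by
      rw [Matroid.dual_ground, ← hE]
      exact_mod_cast hX
    have h1 := M.dual.eRk_dual_add_eRank (X : Set ℕ) hX'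
    have h2 : M.dual.E \ (X : Set ℕ) = ((E \ X : Finset ℕ) : Set ℕ) := by
      rw [Matroid.dual_ground, ← hE, Finset.coe_sdiff]
    rw [Matroid.dual_dual, h2, hr _ (by rw [← h2]; exact Set.diff_subset), hrr,
      Set.encard_coe_eq_coe_finsetCard, ← rks_eq_eRk hfin _ X.finite_toSet] at h1
    exact_mod_cast h1
  have hcle : ∀ X : Finset ℕ, Pool.Agent.Lib.MP_4a8162_co.cc ends (X : Set ℕ) ≤ m := by
    intro X
    have := finrank_edges ℚ ends (X : Set ℕ) X.finite_toSet
    omega
  have hexp : ∀ X : Finset ℕ, X ⊆ E → m + (rks M M.E - rks M (X : Set ℕ)) =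
      (E \ X).card + Pool.Agent.Lib.MP_4a8162_co.cc ends ((E \ X : Finset ℕ) : Set ℕ) := by
    intro X hX
    have h1 := hrank X hX
    have h2 := hrank E subset_rfl
    have h3 := le_card_add_cc ends (E \ X)
    have h4 := hcle (E \ X)
    have h5 := le_card_add_cc ends (∅ : Finset ℕ)
    have h6 : (E \ X).card + X.card = E.card := card_sdiff_add_card_eq_card hX
    rw [sdiff_self] at h2
    rw [card_empty] at h5
    have h7 : (E : Set ℕ) = M.E := hE
    rw [← h7]
    have h8 : m - Pool.Agent.Lib.MP_4a8162_co.cc ends ((∅ : Finset ℕ) : Set ℕ) = 0 := by omega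
    change rks M (E : Set ℕ) + r =
      (m - Pool.Agent.Lib.MP_4a8162_co.cc ends ((∅ : Finset ℕ) : Set ℕ)) + E.card at h2
    omega
  rw [mul_sum]
  symm
  refine Finset.sum_bij (fun A _ => E \ A.map (Function.Embedding.subtype _)) ?_ ?_ ?_ ?_
  · intro A _
    rw [mem_powerset]
    exact sdiff_subset
  · intro A _ B _ hAB
    have hsub : ∀ C : Finset {i // i ∈ E}, C.map (Function.Embedding.subtype _) ⊆ E := by
      intro C i hi
      rw [Finset.mem_map] at hi
      obtain ⟨j, -, rfl⟩ := hi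
      exact j.2
    have h1 : A.map (Function.Embedding.subtype _) = B.map (Function.Embedding.subtype _) := by
      rw [← Finset.sdiff_sdiff_eq_self (hsub A), ← Finset.sdiff_sdiff_eq_self (hsub B)]
      exact congrArg (E \ ·) hAB
    exact Finset.map_injective _ h1
  · intro X hX
    rw [mem_powerset] at hX
    refine ⟨univ.filter fun i => (i : ℕ) ∉ X, mem_univ _, ?_⟩
    ext i
    simp only [mem_sdiff, Finset.mem_map, mem_filter, mem_univ, true_and,
      Function.Embedding.coe_subtype, not_exists, not_and]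
    constructor
    · rintro ⟨h1, h2⟩
      by_contra h3
      exact h2 ⟨i, h1⟩ h3 rfl
    · intro hi
      refine ⟨hX hi, fun j hj hji => hj ?_⟩
      rw [hji]
      exact hi
  · intro A _
    have hsub : A.map (Function.Embedding.subtype _) ⊆ E := by
      intro i hi
      rw [Finset.mem_map] at hi
      obtain ⟨j, -, rfl⟩ := hi
      exact j.2
    have h1 : (E \ A.map (Function.Embedding.subtype _)).card = E.card - A.card := by
      rw [card_sdiff_of_subset hsub, card_map]
    have h2 := hexp (E \ A.map (Function.Embedding.subtype _)) sdiff_subset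
    rw [Finset.sdiff_sdiff_eq_self hsub, cc_map, cc_quot, card_map] at h2
    rw [h1]
    calc x ^ A.card * (-1) ^ (E.card - A.card) *
          x ^ (cc (fun i : {i // i ∈ E} => ends i) A).card
        = (-1) ^ (E.card - A.card) *
          x ^ (A.card + (cc (fun i : {i // i ∈ E} => ends i) A).card) := by
          rw [pow_add]; ring
      _ = _ := by
          rw [← h2, pow_add]; ring

end Pool.Agent.Lib.MP_4a8162_co.FX
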