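import Mathlib

set_option autoImplicit false

/-!
# MP_4a8162_co, FLOW ROOTS OF EXPANDERS: definitions and basic facts

A finite multigraph (loops and parallel edges allowed) is a map `p : E → V × V`.
-/

namespace Pool.Agent.Lib.MP_4a8162_co.FX

open Finset
open scoped Classical

/-! ## Polymers on a graph -/

section gas

variable {Ω : Type} [Fintype Ω]

/-- `K` is connected: every nonempty proper part of it has a neighbour in the rest -/
def Conn (adj : Ω → Ω → Prop) (K : Finset Ω) : Prop :=
  ∀ B ⊆ K, B.Nonempty → B ≠ K → ∃ x ∈ B, ∃ y ∈ K \ B, adj x y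

/-- the closed neighbourhood -/
noncomputable def nb (adj : Ω → Ω → Prop) (K : Finset Ω) : Finset Ω :=
  univ.filter fun v => v ∈ K ∨ ∃ w ∈ K, adj w v

/-- the connected sets which contain `v` -/
noncomputable def cs (adj : Ω → Ω → Prop) (v : Ω) : Finset (Finset Ω) :=
  univ.filter fun K => v ∈ K ∧ Conn adj K

/-- `u` is multiplicative over disjoint sets without adjacent elements -/
def Mult (adj : Ω → Ω → Prop) (u : Finset Ω → ℂ) : Prop :=
  ∀ X Y : Finset Ω, Disjoint X Y → (∀ x ∈ X, ∀ y ∈ Y, ¬ adj x y) → u (X ∪ Y) = u X * u Y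

theorem mem_nb {adj : Ω → Ω → Prop} {K : Finset Ω} {v : Ω} :
    v ∈ nb adj K ↔ v ∈ K ∨ ∃ w ∈ K, adj w v := by
  simp [nb]

theorem mem_cs {adj : Ω → Ω → Prop} {K : Finset Ω} {v : Ω} :
    K ∈ cs adj v ↔ v ∈ K ∧ Conn adj K := by
  simp [cs]

end gas

/-! ## Multigraphs -/

section graph

variable {V E : Type} [Fintype V] [Fintype E]

/-- the edges inside `W` -/
noncomputable def ins (p : E → V × V) (W : Finset V) : Finset E :=
  univ.filter fun e => (p e).1 ∈ W ∧ (p e).2 ∈ W

/-- the edges between `W` and its complement -/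
noncomputable def bd (p : E → V × V) (W : Finset V) : Finset E :=
  univ.filter fun e => ¬ ((p e).1 ∈ W ↔ (p e).2 ∈ W)

/-- no edge of `A` leaves `W` -/
def Closed (p : E → V × V) (A : Finset E) (W : Finset V) : Prop :=
  ∀ e ∈ A, ((p e).1 ∈ W ↔ (p e).2 ∈ W)

/-- the vertices `u` and `v` are adjacent -/
def Adj (p : E → V × V) (u v : V) : Prop := ∃ e, p e = (u, v) ∨ p e = (v, u)

/-- `u` and `v` lie in the same component of `(V, A)` -/
def Rel (p : E → V × V) (A : Finset E) : V → V → Prop :=
  Relation.EqvGen fun u v => ∃ e ∈ A, p e = (u, v)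

/-- the component of `v` in `(V, A)` -/
noncomputable def cl (p : E → V × V) (A : Finset E) (v : V) : Finset V :=
  univ.filter fun w => Rel p A v w

/-- the components of `(V, A)` -/
noncomputable def cc (p : E → V × V) (A : Finset E) : Finset (Finset V) :=
  univ.image (cl p A)

/-- the components of `(V, A)` which are contained in `W` -/
noncomputable def cin (p : E → V × V) (A : Finset E) (W : Finset V) : Finset (Finset V) :=
  (cc p A).filter fun C => C ⊆ W

/-- `C` is small: it spans no more edges than its complement -/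
def sm (p : E → V × V) (C : Finset V) : Prop := (ins p C).card ≤ (ins p Cᶜ).card

/-- the sets of edges inside `W` all whose components inside `W` are small -/
noncomputable def fam (p : E → V × V) (W : Finset V) : Finset (Finset E) :=
  (ins p W).powerset.filter fun A => ∀ C ∈ cin p A W, sm p C

/-- the weight of `W` -/
noncomputable def q (p : E → V × V) (x : ℂ) (W : Finset V) : ℂ :=
  ∑ A ∈ fam p W, x ^ A.card * (-1) ^ (ins p W \ A).card * (x - 1) ^ (cin p A W).card

/-- the spanning subgraph `(V, A)` as a simple graph -/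
def graphOf (p : E → V × V) (A : Finset E) : SimpleGraph V :=
  SimpleGraph.fromRel fun u v => ∃ e ∈ A, p e = (u, v)

theorem mem_ins {p : E → V × V} {W : Finset V} {e : E} :
    e ∈ ins p W ↔ (p e).1 ∈ W ∧ (p e).2 ∈ W := by
  simp [ins]

theorem mem_bd {p : E → V × V} {W : Finset V} {e : E} :
    e ∈ bd p W ↔ ¬ ((p e).1 ∈ W ↔ (p e).2 ∈ W) := by
  simp [bd]

theorem mem_cl {p : E → V × V} {A : Finset E} {v w : V} : w ∈ cl p A v ↔ Rel p A v w := by
  simp [cl]

theorem mem_cc {p : E → V × V} {A : Finset E} {C : Finset V} :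
    C ∈ cc p A ↔ ∃ v, cl p A v = C := by
  simp [cc]

theorem mem_cin {p : E → V × V} {A : Finset E} {W C : Finset V} :
    C ∈ cin p A W ↔ C ∈ cc p A ∧ C ⊆ W := by
  simp [cin]

theorem mem_fam {p : E → V × V} {A : Finset E} {W : Finset V} :
    A ∈ fam p W ↔ A ⊆ ins p W ∧ ∀ C ∈ cin p A W, sm p C := by
  simp [fam]

theorem self_mem_cl (p : E → V × V) (A : Finset E) (v : V) : v ∈ cl p A v :=
  mem_cl.2 (Relation.EqvGen.refl v)

/-- components are equal or disjoint -/
theorem cl_eq_of_mem {p : E → V × V} {A : Finset E} {v w : V} (h : w ∈ cl p A v) :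
    cl p A w = cl p A v := by
  have h' := mem_cl.1 h
  ext z
  rw [mem_cl, mem_cl]
  exact ⟨fun hz => Relation.EqvGen.trans _ _ _ h' hz,
    fun hz => Relation.EqvGen.trans _ _ _ (Relation.EqvGen.symm _ _ h') hz⟩

theorem closed_cl (p : E → V × V) (A : Finset E) (v : V) : Closed p A (cl p A v) := by
  intro e he
  have h : Rel p A (p e).1 (p e).2 := Relation.EqvGen.rel _ _ ⟨e, he, rfl⟩
  rw [mem_cl, mem_cl]
  exact ⟨fun hz => Relation.EqvGen.trans _ _ _ hz h,
    fun hz => Relation.EqvGen.trans _ _ _ hz (Relation.EqvGen.symm _ _ h)⟩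

/-- the component of `v` is the smallest closed set which contains `v` -/
theorem cl_subset {p : E → V × V} {A : Finset E} {W : Finset V} {v : V} (hW : Closed p A W)
    (hv : v ∈ W) : cl p A v ⊆ W := by
  have key : ∀ a b, Rel p A a b → (a ∈ W ↔ b ∈ W) := by
    intro a b h
    induction h with
    | rel x y h =>
      obtain ⟨e, he, hp⟩ := h
      have := hW e he
      rw [hp] at this
      exact this
    | refl x => exact Iff.rfl
    | symm x y _ ih => exact ih.symm
    | trans x y z _ _ ih1 ih2 => exact ih1.trans ih2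
  intro w hw
  exact (key v w (mem_cl.1 hw)).1 hv

/-- the components inside a closed set `W` only depend on the edges inside `W` -/
theorem cl_inter {p : E → V × V} {A : Finset E} {W : Finset V} {v : V} (hW : Closed p A W)
    (hv : v ∈ W) : cl p A v = cl p (A ∩ ins p W) v := by
  have h1 : Closed p (A ∩ ins p W) W := fun e he => hW e (mem_inter.1 he).1
  have h2 : cl p (A ∩ ins p W) v ⊆ W := cl_subset h1 hv
  apply Subset.antisymm
  · refine cl_subset ?_ (self_mem_cl _ _ _)
    intro e he
    constructor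
    · intro h
      have h3 : e ∈ A ∩ ins p W := mem_inter.2 ⟨he, mem_ins.2 ⟨h2 h, (hW e he).1 (h2 h)⟩⟩
      exact (closed_cl p (A ∩ ins p W) v e h3).1 h
    · intro h
      have h3 : e ∈ A ∩ ins p W := mem_inter.2 ⟨he, mem_ins.2 ⟨(hW e he).2 (h2 h), h2 h⟩⟩
      exact (closed_cl p (A ∩ ins p W) v e h3).2 h
  · refine cl_subset ?_ (self_mem_cl _ _ _)
    intro e he
    exact closed_cl p A v e (mem_inter.1 he).1

theorem mem_cc_iff {p : E → V × V} {A : Finset E} {C : Finset V} {v : V} (hC : C ∈ cc p A)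
    (hv : v ∈ C) : cl p A v = C := by
  obtain ⟨w, rfl⟩ := mem_cc.1 hC
  exact cl_eq_of_mem hv

end graph

end Pool.Agent.Lib.MP_4a8162_co.FX
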