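import Pool.Agent.Lib.MP_4a8162_co.FX.Stm

set_option autoImplicit false

/-!
# MP_4a8162_co, FLOW ROOTS OF EXPANDERS: piece B (helper37)
-/

namespace Pool.Agent.Lib.MP_4a8162_co.FX

open Finset
open scoped Classical

section B

variable {V E : Type} [Fintype V] [Fintype E]

private theorem B_closed {p : E → V × V} {W : Finset V} {A : Finset E} (hA : A ⊆ ins p W) :
    Closed p A W := by
  intro e he
  have h := mem_ins.1 (hA he)
  exact ⟨fun _ => h.2, fun _ => h.1⟩

private theorem B_small {p : E → V × V} {K : ℕ} (hE : Nonempty E)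
    (h3 : ∀ S : Finset V, S.Nonempty → S ≠ univ → 3 ≤ (bd p S).card)
    (hK : ∀ S : Finset V, (ins p S).card ≤ K * (bd p S).card ∨
      (ins p Sᶜ).card ≤ K * (bd p S).card)
    {C : Finset V} (hC : C.Nonempty) (hs : sm p C) :
    3 ≤ (bd p C).card ∧ (ins p C).card ≤ K * (bd p C).card := by
  constructor
  · refine h3 C hC ?_
    rintro rfl
    unfold sm at hs
    have h1 : ins p (univ : Finset V) = univ := by
      ext e
      simp [mem_ins]
    have h2 : ins p (univ : Finset V)ᶜ = ∅ := by
      ext e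
      simp [mem_ins]
    rw [h1, h2, card_empty, card_univ] at hs
    have := Fintype.card_pos (α := E)
    omega
  · rcases hK C with h | h
    · exact h
    · exact le_trans hs h

end B

theorem P_B : S_B := by
  intro V E _ _ p K hE h3 hK W A hA
  obtain ⟨hAW, hsm⟩ := mem_fam.1 hA
  have hcl : Closed p A W := B_closed hAW
  -- the components inside `W`
  have hne : ∀ C ∈ cin p A W, C.Nonempty := by
    intro C hC
    obtain ⟨v, rfl⟩ := mem_cc.1 (mem_cin.1 hC).1
    exact ⟨v, self_mem_cl p A v⟩
  have hS : ∀ C ∈ cin p A W, 3 ≤ (bd p C).card ∧ (ins p C).card ≤ K * (bd p C).card :=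
    fun C hC => B_small hE h3 hK (hne C hC) (hsm C hC)
  have hclosedC : ∀ C ∈ cin p A W, Closed p A C := by
    intro C hC
    obtain ⟨v, rfl⟩ := mem_cc.1 (mem_cin.1 hC).1
    exact closed_cl p A v
  set D : Finset E := (ins p W \ A) ∪ bd p W with hD
  have hdisj : Disjoint (ins p W \ A) (bd p W) := by
    rw [disjoint_left]
    intro e he he'
    have h1 := mem_ins.1 (mem_sdiff.1 he).1
    exact (mem_bd.1 he') ⟨fun _ => h1.2, fun _ => h1.1⟩
  have hDcard : D.card = (ins p W \ A).card + (bd p W).card := card_union_of_disjoint hdisj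
  have hbdD : ∀ C ∈ cin p A W, bd p C ⊆ D := by
    intro C hC e he
    have hCW := (mem_cin.1 hC).2
    have hnA : e ∉ A := fun h => (mem_bd.1 he) (hclosedC C hC e h)
    rw [hD, mem_union, mem_sdiff]
    by_cases hW : e ∈ ins p W
    · exact Or.inl ⟨hW, hnA⟩
    · right
      rw [mem_bd]
      intro hiff
      apply hW
      rw [mem_ins]
      have h4 := mem_bd.1 he
      by_cases h5 : (p e).1 ∈ C
      · exact ⟨hCW h5, hiff.1 (hCW h5)⟩
      · by_cases h6 : (p e).2 ∈ C
        · exact ⟨hiff.2 (hCW h6), hCW h6⟩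
        · exact absurd ⟨fun h => absurd h h5, fun h => absurd h h6⟩ h4
  -- double counting
  have hsum : ∑ C ∈ cin p A W, (bd p C).card ≤ 2 * D.card := by
    have h1 : ∀ C ∈ cin p A W, (bd p C).card = ∑ e ∈ D, if e ∈ bd p C then 1 else 0 := by
      intro C hC
      rw [← Finset.sum_filter, Finset.sum_const, smul_eq_mul, mul_one]
      congr 1
      ext e
      rw [mem_filter]
      exact ⟨fun h => ⟨hbdD C hC h, h⟩, fun h => h.2⟩
    rw [Finset.sum_congr rfl h1, Finset.sum_comm]
    have h2 : ∀ e ∈ D, (∑ C ∈ cin p A W, if e ∈ bd p C then 1 else 0) ≤ 2 := by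
      intro e _
      rw [← Finset.sum_filter, Finset.sum_const, smul_eq_mul, mul_one]
      have h3 : (cin p A W).filter (fun C => e ∈ bd p C) ⊆ {cl p A (p e).1, cl p A (p e).2} := by
        intro C hC
        rw [mem_filter] at hC
        obtain ⟨hC1, hC2⟩ := hC
        have hcc := (mem_cin.1 hC1).1
        rw [mem_insert, mem_singleton]
        by_cases h5 : (p e).1 ∈ C
        · exact Or.inl (mem_cc_iff hcc h5).symm
        · by_cases h6 : (p e).2 ∈ C
          · exact Or.inr (mem_cc_iff hcc h6).symm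
          · exact absurd ⟨fun h => absurd h h5, fun h => absurd h h6⟩ (mem_bd.1 hC2)
      exact (card_le_card h3).trans card_le_two
    calc ∑ e ∈ D, (∑ C ∈ cin p A W, if e ∈ bd p C then 1 else 0) ≤ ∑ _e ∈ D, 2 :=
          Finset.sum_le_sum h2
      _ = 2 * D.card := by rw [Finset.sum_const, smul_eq_mul, mul_comm]
  constructor
  · rw [← hDcard]
    calc 3 * (cin p A W).card = ∑ _C ∈ cin p A W, 3 := by
          rw [Finset.sum_const, smul_eq_mul, mul_comm]
      _ ≤ ∑ C ∈ cin p A W, (bd p C).card := Finset.sum_le_sum fun C hC => (hS C hC).1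
      _ ≤ 2 * D.card := hsum
  · rw [← hDcard]
    have hdisj2 : Disjoint (ins p W) (bd p W) := by
      rw [disjoint_left]
      intro e he he'
      have h1 := mem_ins.1 he
      exact (mem_bd.1 he') ⟨fun _ => h1.2, fun _ => h1.1⟩
    have hcov : ins p W ∪ bd p W ⊆ (cin p A W).biUnion (fun C => ins p C ∪ bd p C) := by
      intro e he
      have hend : ∃ v, v ∈ W ∧ (v = (p e).1 ∨ v = (p e).2) := by
        rw [mem_union] at he
        rcases he with he | he
        · exact ⟨_, (mem_ins.1 he).1, Or.inl rfl⟩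
        · by_cases h5 : (p e).1 ∈ W
          · exact ⟨_, h5, Or.inl rfl⟩
          · by_cases h6 : (p e).2 ∈ W
            · exact ⟨_, h6, Or.inr rfl⟩
            · exact absurd ⟨fun h => absurd h h5, fun h => absurd h h6⟩ (mem_bd.1 he)
      obtain ⟨v, hvW, hv⟩ := hend
      rw [mem_biUnion]
      refine ⟨cl p A v, mem_cin.2 ⟨mem_cc.2 ⟨v, rfl⟩, cl_subset hcl hvW⟩, ?_⟩
      have hvC := self_mem_cl p A v
      rw [mem_union, mem_ins, mem_bd]
      rcases hv with rfl | rfl
      · by_cases h6 : (p e).2 ∈ cl p A (p e).1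
        · exact Or.inl ⟨hvC, h6⟩
        · exact Or.inr fun h => h6 (h.1 hvC)
      · by_cases h6 : (p e).1 ∈ cl p A (p e).2
        · exact Or.inl ⟨h6, hvC⟩
        · exact Or.inr fun h => h6 (h.2 hvC)
    calc (ins p W).card + (bd p W).card = (ins p W ∪ bd p W).card :=
          (card_union_of_disjoint hdisj2).symm
      _ ≤ ((cin p A W).biUnion (fun C => ins p C ∪ bd p C)).card := card_le_card hcov
      _ ≤ ∑ C ∈ cin p A W, (ins p C ∪ bd p C).card := card_biUnion_le
      _ ≤ ∑ C ∈ cin p A W, (K + 1) * (bd p C).card := by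
          refine Finset.sum_le_sum fun C hC => ?_
          have h1 := card_union_le (ins p C) (bd p C)
          have h2 := (hS C hC).2
          calc (ins p C ∪ bd p C).card ≤ (ins p C).card + (bd p C).card := h1
            _ ≤ K * (bd p C).card + (bd p C).card := Nat.add_le_add_right h2 _
            _ = (K + 1) * (bd p C).card := by ring
      _ = (K + 1) * ∑ C ∈ cin p A W, (bd p C).card := by rw [Finset.mul_sum]
      _ ≤ (K + 1) * (2 * D.card) := Nat.mul_le_mul_left _ hsum
      _ = 2 * (K + 1) * D.card := by ring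

end Pool.Agent.Lib.MP_4a8162_co.FX
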