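import Pool.Agent.Lib.MP_4a8162_co.FX.Stm

set_option autoImplicit false

namespace Pool.Agent.Lib.MP_4a8162_co.FX

open Finset
open scoped Classical

/-- the sets `U` with `U ∩ nb K = K` -/
noncomputable def CNT_F {Ω : Type} [Fintype Ω] (adj : Ω → Ω → Prop) (K : Finset Ω) :
    Finset (Finset Ω) :=
  (nb adj K)ᶜ.powerset.image fun W => K ∪ W

theorem CNT_inter {Ω : Type} [Fintype Ω] {adj : Ω → Ω → Prop} {K U : Finset Ω}
    (hU : U ∈ CNT_F adj K) : ∀ x ∈ nb adj K, (x ∈ U ↔ x ∈ K) := by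
  obtain ⟨W, hW, rfl⟩ := mem_image.1 hU
  intro x hx
  rw [mem_union]
  constructor
  · rintro (h | h)
    · exact h
    · exact absurd hx (mem_compl.1 (mem_powerset.1 hW h))
  · exact Or.inl

theorem CNT_card {Ω : Type} [Fintype Ω] (adj : Ω → Ω → Prop) (K : Finset Ω) :
    (CNT_F adj K).card = 2 ^ ((nb adj K)ᶜ).card := by
  unfold CNT_F
  rw [card_image_of_injOn, card_powerset]
  intro W₁ h₁ W₂ h₂ h
  have h₁' := mem_powerset.1 (mem_coe.1 h₁)
  have h₂' := mem_powerset.1 (mem_coe.1 h₂)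
  have key : ∀ W ⊆ (nb adj K)ᶜ, (K ∪ W) \ K = W := by
    intro W hW
    ext x
    rw [mem_sdiff, mem_union]
    constructor
    · rintro ⟨h | h, h'⟩
      · exact absurd h h'
      · exact h
    · intro h
      exact ⟨Or.inr h, fun hK => mem_compl.1 (hW h) (mem_nb.2 (Or.inl hK))⟩
  have h' : K ∪ W₁ = K ∪ W₂ := h
  rw [← key W₁ h₁', h', key W₂ h₂']

theorem CNT_aux {Ω : Type} [Fintype Ω] {adj : Ω → Ω → Prop} {v : Ω} {K K' U : Finset Ω}
    (hK : K ∈ cs adj v) (hK' : K' ∈ cs adj v) (hU : U ∈ CNT_F adj K) (hU' : U ∈ CNT_F adj K') :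
    K' ⊆ K := by
  by_contra hn
  obtain ⟨hv, _⟩ := mem_cs.1 hK
  obtain ⟨hv', hc'⟩ := mem_cs.1 hK'
  obtain ⟨x, hx, y, hy, hxy⟩ := hc' (K' ∩ K) inter_subset_left ⟨v, mem_inter.2 ⟨hv', hv⟩⟩
    (fun h => hn (inter_eq_left.1 h))
  have hx2 := (mem_inter.1 hx).2
  obtain ⟨hy1, hy2⟩ := mem_sdiff.1 hy
  have hyU : y ∈ U := (CNT_inter hU' y (mem_nb.2 (Or.inl hy1))).2 hy1
  have hyK : y ∈ K := (CNT_inter hU y (mem_nb.2 (Or.inr ⟨x, hx2, hxy⟩))).1 hyU
  exact hy2 (mem_inter.2 ⟨hy1, hyK⟩)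

theorem P_CNT : S_CNT := by
  intro Ω _ adj v
  have hd : ∀ K ∈ cs adj v, ∀ K' ∈ cs adj v, K ≠ K' → Disjoint (CNT_F adj K) (CNT_F adj K') := by
    intro K hK K' hK' hne
    rw [disjoint_left]
    intro U hU hU'
    exact hne (Subset.antisymm (CNT_aux hK' hK hU' hU) (CNT_aux hK hK' hU hU'))
  have h1 : ∑ K ∈ cs adj v, (CNT_F adj K).card ≤ 2 ^ Fintype.card Ω := by
    rw [← card_biUnion hd]
    calc ((cs adj v).biUnion (CNT_F adj)).card ≤ (univ : Finset (Finset Ω)).card :=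
          card_le_card (subset_univ _)
      _ = 2 ^ Fintype.card Ω := by rw [card_univ, Fintype.card_finset]
  have h2 : (∑ K ∈ cs adj v, (2 : ℝ) ^ ((nb adj K)ᶜ).card) ≤ 2 ^ Fintype.card Ω := by
    have h3 : (∑ K ∈ cs adj v, (2 : ℝ) ^ ((nb adj K)ᶜ).card) =
        ((∑ K ∈ cs adj v, (CNT_F adj K).card : ℕ) : ℝ) := by
      push_cast
      refine sum_congr rfl fun K _ => ?_
      rw [CNT_card]
      push_cast
      rfl
    rw [h3]
    exact_mod_cast h1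
  have hpos : (0 : ℝ) < 2 ^ Fintype.card Ω := by positivity
  have h4 : ∑ K ∈ cs adj v, (1 / 2 : ℝ) ^ (nb adj K).card =
      (∑ K ∈ cs adj v, (2 : ℝ) ^ ((nb adj K)ᶜ).card) / 2 ^ Fintype.card Ω := by
    rw [sum_div]
    refine sum_congr rfl fun K _ => ?_
    have h5 : ((nb adj K)ᶜ).card + (nb adj K).card = Fintype.card Ω := by
      rw [card_compl]
      exact Nat.sub_add_cancel (card_le_univ _)
    rw [← h5, pow_add, one_div, inv_pow]
    have : (2 : ℝ) ^ ((nb adj K)ᶜ).card ≠ 0 := by positivity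
    field_simp
  rw [h4]
  exact (div_le_one hpos).2 h2

end Pool.Agent.Lib.MP_4a8162_co.FX
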