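import Pool.Agent.Lib.MP_4a8162_co.FX.Stm

set_option autoImplicit false

/-!
# MP_4a8162_co, FLOW ROOTS OF EXPANDERS: piece F (factorisation of the sum for a fixed set)
-/

namespace Pool.Agent.Lib.MP_4a8162_co.FX

open Finset
open scoped Classical

theorem F_cin {V E : Type} [Fintype V] [Fintype E] {p : E → V × V} {A : Finset E} {W : Finset V}
    (hW : Closed p A W) : cin p A W = cin p (A ∩ ins p W) W := by
  ext C
  rw [mem_cin, mem_cin]
  constructor
  · rintro ⟨h, hC⟩
    obtain ⟨v, rfl⟩ := mem_cc.1 h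
    refine ⟨mem_cc.2 ⟨v, ?_⟩, hC⟩
    exact (cl_inter hW (hC (self_mem_cl _ _ _))).symm
  · rintro ⟨h, hC⟩
    obtain ⟨v, rfl⟩ := mem_cc.1 h
    refine ⟨mem_cc.2 ⟨v, ?_⟩, hC⟩
    exact cl_inter hW (hC (self_mem_cl _ _ _))

theorem F_ins_disj {V E : Type} [Fintype V] [Fintype E] (p : E → V × V) (W : Finset V) {e : E}
    (h1 : e ∈ ins p W) (h2 : e ∈ ins p Wᶜ) : False := by
  rw [mem_ins] at h1 h2
  exact (mem_compl.1 h2.1) h1.1

theorem F_cover {V E : Type} [Fintype V] [Fintype E] (p : E → V × V) (W : Finset V) (e : E) :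
    e ∈ ins p W ∨ e ∈ ins p Wᶜ ∨ e ∈ bd p W := by
  rw [mem_ins, mem_ins, mem_bd, mem_compl, mem_compl]
  tauto

theorem F_closed_mem {V E : Type} [Fintype V] [Fintype E] {p : E → V × V} {A : Finset E}
    {W : Finset V} (hW : Closed p A W) {e : E} (he : e ∈ A) : e ∈ ins p W ∨ e ∈ ins p Wᶜ := by
  rcases F_cover p W e with h | h | h
  · exact Or.inl h
  · exact Or.inr h
  · exact absurd (hW e he) (mem_bd.1 h)

/-- the number of edges outside a disjoint union -/
theorem F_card {V E : Type} [Fintype V] [Fintype E] (p : E → V × V) (W : Finset V)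
    {A₁ A₂ : Finset E} (h1 : A₁ ⊆ ins p W) (h2 : A₂ ⊆ ins p Wᶜ) :
    ((A₁ ∪ A₂)ᶜ).card = (ins p W \ A₁).card + ((ins p Wᶜ).card - A₂.card) + (bd p W).card := by
  have e1 : (A₁ ∪ A₂)ᶜ = ((ins p W \ A₁) ∪ (ins p Wᶜ \ A₂)) ∪ bd p W := by
    ext e
    rw [mem_compl, mem_union, mem_union, mem_union, mem_sdiff, mem_sdiff]
    constructor
    · intro h
      rcases F_cover p W e with h3 | h3 | h3
      · exact Or.inl (Or.inl ⟨h3, fun h4 => h (Or.inl h4)⟩)
      · exact Or.inl (Or.inr ⟨h3, fun h4 => h (Or.inr h4)⟩)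
      · exact Or.inr h3
    · intro h h4
      rcases h with (h | h) | h
      · rcases h4 with h4 | h4
        · exact h.2 h4
        · exact F_ins_disj p W h.1 (h2 h4)
      · rcases h4 with h4 | h4
        · exact F_ins_disj p W (h1 h4) h.1
        · exact h.2 h4
      · rw [mem_bd] at h
        rcases h4 with h4 | h4
        · have := mem_ins.1 (h1 h4)
          exact h ⟨fun _ => this.2, fun _ => this.1⟩
        · have := mem_ins.1 (h2 h4)
          rw [mem_compl, mem_compl] at this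
          exact h ⟨fun h5 => absurd h5 this.1, fun h5 => absurd h5 this.2⟩
  have d1 : Disjoint (ins p W \ A₁) (ins p Wᶜ \ A₂) := by
    rw [Finset.disjoint_left]
    intro e h3 h4
    exact F_ins_disj p W (mem_sdiff.1 h3).1 (mem_sdiff.1 h4).1
  have d2 : Disjoint ((ins p W \ A₁) ∪ (ins p Wᶜ \ A₂)) (bd p W) := by
    rw [Finset.disjoint_left]
    intro e h3 h4
    rw [mem_bd] at h4
    rcases mem_union.1 h3 with h3 | h3
    · have := mem_ins.1 (mem_sdiff.1 h3).1
      exact h4 ⟨fun _ => this.2, fun _ => this.1⟩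
    · have := mem_ins.1 (mem_sdiff.1 h3).1
      rw [mem_compl, mem_compl] at this
      exact h4 ⟨fun h5 => absurd h5 this.1, fun h5 => absurd h5 this.2⟩
  rw [e1, card_union_of_disjoint d2, card_union_of_disjoint d1, card_sdiff_of_subset h2]

theorem F_union_inter {V E : Type} [Fintype V] [Fintype E] (p : E → V × V) (W : Finset V)
    {A₁ A₂ : Finset E} (h1 : A₁ ⊆ ins p W) (h2 : A₂ ⊆ ins p Wᶜ) :
    (A₁ ∪ A₂) ∩ ins p W = A₁ := by
  ext e
  rw [mem_inter, mem_union]
  constructor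
  · rintro ⟨h | h, h3⟩
    · exact h
    · exact (F_ins_disj p W h3 (h2 h)).elim
  · intro h
    exact ⟨Or.inl h, h1 h⟩

theorem F_union_inter' {V E : Type} [Fintype V] [Fintype E] (p : E → V × V) (W : Finset V)
    {A₁ A₂ : Finset E} (h1 : A₁ ⊆ ins p W) (h2 : A₂ ⊆ ins p Wᶜ) :
    (A₁ ∪ A₂) ∩ ins p Wᶜ = A₂ := by
  ext e
  rw [mem_inter, mem_union]
  constructor
  · rintro ⟨h | h, h3⟩
    · exact (F_ins_disj p W (h1 h) h3).elim
    · exact h
  · intro h
    exact ⟨Or.inr h, h2 h⟩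

theorem F_closed_union {V E : Type} [Fintype V] [Fintype E] (p : E → V × V) (W : Finset V)
    {A₁ A₂ : Finset E} (h1 : A₁ ⊆ ins p W) (h2 : A₂ ⊆ ins p Wᶜ) : Closed p (A₁ ∪ A₂) W := by
  intro e he
  rcases mem_union.1 he with h | h
  · have := mem_ins.1 (h1 h)
    exact ⟨fun _ => this.2, fun _ => this.1⟩
  · have := mem_ins.1 (h2 h)
    rw [mem_compl, mem_compl] at this
    exact ⟨fun h5 => absurd h5 this.1, fun h5 => absurd h5 this.2⟩

theorem P_F : S_F := by
  intro V E _ _ p W x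
  have step : ∑ A ∈ univ.filter (fun A : Finset E => Closed p A W ∧ ∀ C ∈ cin p A W, sm p C),
        x ^ A.card * (-1) ^ (Aᶜ).card * (x - 1) ^ (cin p A W).card =
      ∑ y ∈ fam p W ×ˢ (ins p Wᶜ).powerset,
        (x ^ y.1.card * (-1) ^ (ins p W \ y.1).card * (x - 1) ^ (cin p y.1 W).card) *
          ((x ^ y.2.card * (-1) ^ ((ins p Wᶜ).card - y.2.card)) * (-1) ^ (bd p W).card) := by
    refine Finset.sum_nbij' (fun A => (A ∩ ins p W, A ∩ ins p Wᶜ)) (fun y => y.1 ∪ y.2)
      ?_ ?_ ?_ ?_ ?_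
    · intro A hA
      obtain ⟨hc, hs⟩ := (mem_filter.1 hA).2
      refine mem_product.2 ⟨mem_fam.2 ⟨inter_subset_right, ?_⟩, mem_powerset.2 inter_subset_right⟩
      intro C hC
      apply hs
      rw [F_cin hc]
      exact hC
    · intro y hy
      obtain ⟨h1, h2⟩ := mem_product.1 hy
      obtain ⟨h1, h3⟩ := mem_fam.1 h1
      have h2 := mem_powerset.1 h2
      have hc := F_closed_union p W h1 h2
      refine mem_filter.2 ⟨mem_univ _, hc, ?_⟩
      intro C hC
      rw [F_cin hc, F_union_inter p W h1 h2] at hC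
      exact h3 C hC
    · intro A hA
      obtain ⟨hc, hs⟩ := (mem_filter.1 hA).2
      change A ∩ ins p W ∪ A ∩ ins p Wᶜ = A
      ext e
      rw [mem_union, mem_inter, mem_inter]
      constructor
      · rintro (h | h)
        · exact h.1
        · exact h.1
      · intro h
        rcases F_closed_mem hc h with h4 | h4
        · exact Or.inl ⟨h, h4⟩
        · exact Or.inr ⟨h, h4⟩
    · intro y hy
      obtain ⟨h1, h2⟩ := mem_product.1 hy
      obtain ⟨h1, h3⟩ := mem_fam.1 h1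
      have h2 := mem_powerset.1 h2
      change ((y.1 ∪ y.2) ∩ ins p W, (y.1 ∪ y.2) ∩ ins p Wᶜ) = y
      rw [F_union_inter p W h1 h2, F_union_inter' p W h1 h2]
    · intro A hA
      obtain ⟨hc, hs⟩ := (mem_filter.1 hA).2
      have hu : A = (A ∩ ins p W) ∪ (A ∩ ins p Wᶜ) := by
        ext e
        rw [mem_union, mem_inter, mem_inter]
        constructor
        · intro h
          rcases F_closed_mem hc h with h4 | h4
          · exact Or.inl ⟨h, h4⟩
          · exact Or.inr ⟨h, h4⟩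
        · rintro (h | h)
          · exact h.1
          · exact h.1
      have hd : Disjoint (A ∩ ins p W) (A ∩ ins p Wᶜ) := by
        rw [Finset.disjoint_left]
        intro e h3 h4
        exact F_ins_disj p W (mem_inter.1 h3).2 (mem_inter.1 h4).2
      have c1 : A.card = (A ∩ ins p W).card + (A ∩ ins p Wᶜ).card := by
        rw [← card_union_of_disjoint hd, ← hu]
      have c2 : (Aᶜ).card = (ins p W \ (A ∩ ins p W)).card +
          ((ins p Wᶜ).card - (A ∩ ins p Wᶜ).card) + (bd p W).card := by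
        rw [← F_card p W (A₁ := A ∩ ins p W) (A₂ := A ∩ ins p Wᶜ) inter_subset_right
          inter_subset_right, ← hu]
      change x ^ A.card * (-1) ^ (Aᶜ).card * (x - 1) ^ (cin p A W).card =
        (x ^ (A ∩ ins p W).card * (-1) ^ (ins p W \ (A ∩ ins p W)).card *
          (x - 1) ^ (cin p (A ∩ ins p W) W).card) *
          ((x ^ (A ∩ ins p Wᶜ).card * (-1) ^ ((ins p Wᶜ).card - (A ∩ ins p Wᶜ).card)) *
            (-1) ^ (bd p W).card)
      rw [c1, c2, F_cin hc, pow_add, pow_add, pow_add]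
      ring
  rw [step, Finset.sum_product]
  have hb : ∑ A₂ ∈ (ins p Wᶜ).powerset,
      (x ^ A₂.card * (-1) ^ ((ins p Wᶜ).card - A₂.card) : ℂ) = (x - 1) ^ (ins p Wᶜ).card := by
    rw [Finset.sum_pow_mul_eq_add_pow, sub_eq_add_neg]
  unfold q
  rw [Finset.mul_sum]
  refine Finset.sum_congr rfl ?_
  intro A₁ _
  change ∑ A₂ ∈ (ins p Wᶜ).powerset,
      (x ^ A₁.card * (-1) ^ (ins p W \ A₁).card * (x - 1) ^ (cin p A₁ W).card) *
        ((x ^ A₂.card * (-1) ^ ((ins p Wᶜ).card - A₂.card)) * (-1) ^ (bd p W).card) = _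
  rw [← Finset.mul_sum, ← Finset.sum_mul, hb]
  ring

end Pool.Agent.Lib.MP_4a8162_co.FX
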