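import Pool.Agent.Lib.MP_4a8162_co.FX.Stm

set_option autoImplicit false

namespace Pool.Agent.Lib.MP_4a8162_co.FX

open Finset
open scoped Classical

theorem GAS_key (hC : S_CNT) (hR : S_REC) (Ω : Type) [Fintype Ω] (adj : Ω → Ω → Prop)
    (hsym : ∀ x y, adj x y → adj y x) (u : Finset Ω → ℂ) (hM : Mult adj u)
    (hK : ∀ K : Finset Ω, K.Nonempty → Conn adj K → ‖u K‖ ≤ (1 / 4 : ℝ) ^ (nb adj K).card) :
    ∀ n : ℕ, ∀ S : Finset Ω, S.card = n → ∀ T ⊆ S,
      ‖∑ W ∈ T.powerset, u W‖ ≤ 2 ^ (S \ T).card * ‖∑ W ∈ S.powerset, u W‖ := by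
  intro n
  induction n using Nat.strong_induction_on with
  | _ n ih =>
    intro S hS T hT
    by_cases hTS : T = S
    · subst hTS
      rw [sdiff_self, bot_eq_empty, card_empty, pow_zero, one_mul]
    obtain ⟨v, hvS, hvT⟩ := Finset.exists_of_ssubset (lt_of_le_of_ne hT hTS)
    set S' := S.erase v with hS'
    have hvS' : v ∉ S' := Finset.notMem_erase v S
    have hins : insert v S' = S := Finset.insert_erase hvS
    have hcard : S'.card + 1 = S.card := Finset.card_erase_add_one hvS
    have hlt : S'.card < n := by omega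
    have hstep : ‖∑ W ∈ S'.powerset, u W‖ ≤ 2 * ‖∑ W ∈ S.powerset, u W‖ := by
      have h1 := hR Ω adj hsym u hM S' v hvS'
      rw [hins] at h1
      have h2 : ‖∑ K ∈ (cs adj v).filter (fun K => K ⊆ S),
          u K * ∑ W ∈ (S' \ nb adj K).powerset, u W‖ ≤ 1 / 2 * ‖∑ W ∈ S'.powerset, u W‖ := by
        calc ‖∑ K ∈ (cs adj v).filter (fun K => K ⊆ S),
              u K * ∑ W ∈ (S' \ nb adj K).powerset, u W‖
            ≤ ∑ K ∈ (cs adj v).filter (fun K => K ⊆ S),
              ‖u K * ∑ W ∈ (S' \ nb adj K).powerset, u W‖ := norm_sum_le _ _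
          _ ≤ ∑ K ∈ (cs adj v).filter (fun K => K ⊆ S),
              (1 / 2 : ℝ) ^ (nb adj K).card * (1 / 2 * ‖∑ W ∈ S'.powerset, u W‖) := by
              refine Finset.sum_le_sum fun K hKm => ?_
              have hKc := (mem_filter.1 hKm).1
              obtain ⟨hvK, hconn⟩ := mem_cs.1 hKc
              have h3 := hK K ⟨v, hvK⟩ hconn
              have h4 := ih S'.card hlt S' rfl (S' \ nb adj K) sdiff_subset
              have hvnb : v ∈ nb adj K := mem_nb.2 (Or.inl hvK)
              have h5 : (S' \ (S' \ nb adj K)).card + 1 ≤ (nb adj K).card := by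
                have h6 : S' \ (S' \ nb adj K) ⊆ (nb adj K).erase v := by
                  intro x hx
                  rw [mem_sdiff, mem_sdiff] at hx
                  rw [mem_erase]
                  refine ⟨fun h => hvS' (h ▸ hx.1), ?_⟩
                  by_contra h
                  exact hx.2 ⟨hx.1, h⟩
                have h7 := card_le_card h6
                rw [card_erase_of_mem hvnb] at h7
                have h8 : 0 < (nb adj K).card := card_pos.2 ⟨v, hvnb⟩
                omega
              have h6 : (2 : ℝ) ^ (S' \ (S' \ nb adj K)).card ≤ 2 ^ (nb adj K).card * (1 / 2) := by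
                have h7 : (2 : ℝ) ^ ((S' \ (S' \ nb adj K)).card + 1) ≤ 2 ^ (nb adj K).card :=
                  pow_le_pow_right₀ (by norm_num) h5
                rw [pow_succ] at h7
                linarith
              rw [norm_mul]
              calc ‖u K‖ * ‖∑ W ∈ (S' \ nb adj K).powerset, u W‖
                  ≤ (1 / 4 : ℝ) ^ (nb adj K).card *
                    ((2 ^ (nb adj K).card * (1 / 2)) * ‖∑ W ∈ S'.powerset, u W‖) := by
                    refine mul_le_mul h3 (h4.trans ?_) (norm_nonneg _) (by positivity)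
                    exact mul_le_mul_of_nonneg_right h6 (norm_nonneg _)
                _ = (1 / 2 : ℝ) ^ (nb adj K).card * (1 / 2 * ‖∑ W ∈ S'.powerset, u W‖) := by
                    have h7 : (1 / 4 : ℝ) ^ (nb adj K).card * 2 ^ (nb adj K).card =
                        (1 / 2 : ℝ) ^ (nb adj K).card := by
                      rw [← mul_pow]
                      norm_num
                    rw [← h7]
                    ring
          _ = (∑ K ∈ (cs adj v).filter (fun K => K ⊆ S), (1 / 2 : ℝ) ^ (nb adj K).card) *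
              (1 / 2 * ‖∑ W ∈ S'.powerset, u W‖) := by rw [Finset.sum_mul]
          _ ≤ 1 * (1 / 2 * ‖∑ W ∈ S'.powerset, u W‖) := by
              refine mul_le_mul_of_nonneg_right ?_ (by positivity)
              refine (Finset.sum_le_sum_of_subset_of_nonneg (filter_subset _ _) ?_).trans
                (hC Ω adj v)
              intro K _ _
              positivity
          _ = 1 / 2 * ‖∑ W ∈ S'.powerset, u W‖ := one_mul _
      have h3 : ‖∑ W ∈ S'.powerset, u W‖ ≤ ‖∑ W ∈ S.powerset, u W‖ +
          ‖∑ K ∈ (cs adj v).filter (fun K => K ⊆ S),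
            u K * ∑ W ∈ (S' \ nb adj K).powerset, u W‖ := by
        have h4 : ∑ W ∈ S'.powerset, u W = ∑ W ∈ S.powerset, u W -
            ∑ K ∈ (cs adj v).filter (fun K => K ⊆ S),
              u K * ∑ W ∈ (S' \ nb adj K).powerset, u W := by
          rw [h1]
          ring
        calc ‖∑ W ∈ S'.powerset, u W‖ = ‖∑ W ∈ S.powerset, u W -
            ∑ K ∈ (cs adj v).filter (fun K => K ⊆ S),
              u K * ∑ W ∈ (S' \ nb adj K).powerset, u W‖ := by rw [← h4]
          _ ≤ _ := norm_sub_le _ _
      linarith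
    have hTS' : T ⊆ S' := fun x hx => mem_erase.2 ⟨fun h => hvT (h ▸ hx), hT hx⟩
    have h1 := ih S'.card hlt S' rfl T hTS'
    have h2 : (S \ T).card = (S' \ T).card + 1 := by
      have h3 : S \ T = insert v (S' \ T) := by
        ext x
        simp only [mem_sdiff, mem_insert, hS', mem_erase]
        constructor
        · rintro ⟨hx1, hx2⟩
          by_cases hxv : x = v
          · exact Or.inl hxv
          · exact Or.inr ⟨⟨hxv, hx1⟩, hx2⟩
        · rintro (rfl | ⟨⟨_, hx1⟩, hx2⟩)
          · exact ⟨hvS, hvT⟩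
          · exact ⟨hx1, hx2⟩
      rw [h3, card_insert_of_notMem]
      intro h
      exact hvS' (mem_sdiff.1 h).1
    rw [h2, pow_succ]
    calc ‖∑ W ∈ T.powerset, u W‖ ≤ 2 ^ (S' \ T).card * ‖∑ W ∈ S'.powerset, u W‖ := h1
      _ ≤ 2 ^ (S' \ T).card * (2 * ‖∑ W ∈ S.powerset, u W‖) :=
          mul_le_mul_of_nonneg_left hstep (by positivity)
      _ = 2 ^ (S' \ T).card * 2 * ‖∑ W ∈ S.powerset, u W‖ := by ring

theorem P_GAS : S_CNT → S_REC → S_GAS := by
  intro hC hR Ω _ adj hsym u h0 hM hK S
  have h1 := GAS_key hC hR Ω adj hsym u hM hK S.card S rfl ∅ (empty_subset _)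
  rw [powerset_empty, sum_singleton, h0, norm_one, sdiff_empty] at h1
  have h2 : (0 : ℝ) < 2 ^ S.card := by positivity
  rw [one_div, inv_pow, inv_le_iff_one_le_mul₀ h2, mul_comm]
  exact h1

end Pool.Agent.Lib.MP_4a8162_co.FX
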