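import Pool.Agent.Lib.MP_4a8162_co.FX.Stm

set_option autoImplicit false

/-!
# MP_4a8162_co, FLOW ROOTS OF EXPANDERS: piece M (multiplicativity)
-/

namespace Pool.Agent.Lib.MP_4a8162_co.FX

open Finset
open scoped Classical

section M

variable {V E : Type} [Fintype V] [Fintype E]

theorem M_noedge {p : E → V × V} {X Y : Finset V} (h : ∀ x ∈ X, ∀ y ∈ Y, ¬ Adj p x y) (e : E) :
    ¬ ((p e).1 ∈ X ∧ (p e).2 ∈ Y) ∧ ¬ ((p e).1 ∈ Y ∧ (p e).2 ∈ X) :=
  ⟨fun h1 => h _ h1.1 _ h1.2 ⟨e, Or.inl rfl⟩, fun h1 => h _ h1.2 _ h1.1 ⟨e, Or.inr rfl⟩⟩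

theorem M_not_both {X Y : Finset V} (hd : Disjoint X Y) (v : V) : ¬ (v ∈ X ∧ v ∈ Y) :=
  fun h => Finset.disjoint_left.1 hd h.1 h.2

theorem M_ins {p : E → V × V} {X Y : Finset V} (h : ∀ x ∈ X, ∀ y ∈ Y, ¬ Adj p x y) :
    ins p (X ∪ Y) = ins p X ∪ ins p Y := by
  ext e
  obtain ⟨h1, h2⟩ := M_noedge h e
  rw [mem_union, mem_ins, mem_ins, mem_ins, mem_union, mem_union]
  tauto

theorem M_ins_disj {p : E → V × V} {X Y : Finset V} (hd : Disjoint X Y) :
    Disjoint (ins p X) (ins p Y) := by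
  rw [Finset.disjoint_left]
  intro e h1 h2
  exact M_not_both hd _ ⟨(mem_ins.1 h1).1, (mem_ins.1 h2).1⟩

theorem M_bd {p : E → V × V} {X Y : Finset V} (hd : Disjoint X Y)
    (h : ∀ x ∈ X, ∀ y ∈ Y, ¬ Adj p x y) : bd p (X ∪ Y) = bd p X ∪ bd p Y := by
  ext e
  obtain ⟨h1, h2⟩ := M_noedge h e
  have h3 := M_not_both hd (p e).1
  have h4 := M_not_both hd (p e).2
  rw [mem_union, mem_bd, mem_bd, mem_bd, mem_union, mem_union]
  tauto

theorem M_bd_disj {p : E → V × V} {X Y : Finset V} (hd : Disjoint X Y)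
    (h : ∀ x ∈ X, ∀ y ∈ Y, ¬ Adj p x y) : Disjoint (bd p X) (bd p Y) := by
  rw [Finset.disjoint_left]
  intro e h5 h6
  obtain ⟨h1, h2⟩ := M_noedge h e
  have h3 := M_not_both hd (p e).1
  have h4 := M_not_both hd (p e).2
  rw [mem_bd] at h5 h6
  tauto

theorem M_closed {p : E → V × V} {X Y : Finset V} (hd : Disjoint X Y) {A : Finset E}
    (hA : A ⊆ ins p X ∪ ins p Y) : Closed p A X ∧ Closed p A Y := by
  have key : ∀ e ∈ A, (e ∈ ins p X ∨ e ∈ ins p Y) := fun e he => mem_union.1 (hA he)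
  constructor
  · intro e he
    have h3 := M_not_both hd (p e).1
    have h4 := M_not_both hd (p e).2
    rcases key e he with h | h
    · rw [mem_ins] at h
      tauto
    · rw [mem_ins] at h
      tauto
  · intro e he
    have h3 := M_not_both hd (p e).1
    have h4 := M_not_both hd (p e).2
    rcases key e he with h | h
    · rw [mem_ins] at h
      tauto
    · rw [mem_ins] at h
      tauto

theorem M_cin {p : E → V × V} {A : Finset E} {W : Finset V} (hW : Closed p A W) :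
    cin p A W = cin p (A ∩ ins p W) W := by
  ext C
  rw [mem_cin, mem_cin]
  constructor
  · rintro ⟨h, hC⟩
    obtain ⟨v, rfl⟩ := mem_cc.1 h
    exact ⟨mem_cc.2 ⟨v, (cl_inter hW (hC (self_mem_cl _ _ _))).symm⟩, hC⟩
  · rintro ⟨h, hC⟩
    obtain ⟨v, rfl⟩ := mem_cc.1 h
    exact ⟨mem_cc.2 ⟨v, cl_inter hW (hC (self_mem_cl _ _ _))⟩, hC⟩

theorem M_cin_union {p : E → V × V} {A : Finset E} {X Y : Finset V} (hX : Closed p A X)
    (hY : Closed p A Y) : cin p A (X ∪ Y) = cin p A X ∪ cin p A Y := by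
  ext C
  rw [mem_union, mem_cin, mem_cin, mem_cin]
  constructor
  · rintro ⟨h, hC⟩
    obtain ⟨v, rfl⟩ := mem_cc.1 h
    rcases mem_union.1 (hC (self_mem_cl _ _ _)) with hv | hv
    · exact Or.inl ⟨h, cl_subset hX hv⟩
    · exact Or.inr ⟨h, cl_subset hY hv⟩
  · rintro (⟨h, hC⟩ | ⟨h, hC⟩)
    · exact ⟨h, fun v hv => mem_union.2 (Or.inl (hC hv))⟩
    · exact ⟨h, fun v hv => mem_union.2 (Or.inr (hC hv))⟩

theorem M_cin_disj {p : E → V × V} {A : Finset E} {X Y : Finset V} (hd : Disjoint X Y) :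
    Disjoint (cin p A X) (cin p A Y) := by
  rw [Finset.disjoint_left]
  intro C h1 h2
  rw [mem_cin] at h1 h2
  obtain ⟨v, rfl⟩ := mem_cc.1 h1.1
  exact M_not_both hd v ⟨h1.2 (self_mem_cl _ _ _), h2.2 (self_mem_cl _ _ _)⟩

theorem M_inter_left {p : E → V × V} {X Y : Finset V} (hd : Disjoint X Y) {A B : Finset E}
    (hA : A ⊆ ins p X) (hB : B ⊆ ins p Y) : (A ∪ B) ∩ ins p X = A := by
  ext e
  rw [mem_inter, mem_union]
  constructor
  · rintro ⟨h | h, h3⟩
    · exact h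
    · exact absurd (hB h) (Finset.disjoint_left.1 (M_ins_disj hd) h3)
  · intro h
    exact ⟨Or.inl h, hA h⟩

theorem M_inter_right {p : E → V × V} {X Y : Finset V} (hd : Disjoint X Y) {A B : Finset E}
    (hA : A ⊆ ins p X) (hB : B ⊆ ins p Y) : (A ∪ B) ∩ ins p Y = B := by
  rw [union_comm]
  exact M_inter_left hd.symm hB hA

theorem M_fam {p : E → V × V} {X Y : Finset V} (hd : Disjoint X Y)
    (h : ∀ x ∈ X, ∀ y ∈ Y, ¬ Adj p x y) {A B : Finset E} (hA : A ∈ fam p X) (hB : B ∈ fam p Y) :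
    A ∪ B ∈ fam p (X ∪ Y) := by
  rw [mem_fam] at hA hB ⊢
  have h1 : A ∪ B ⊆ ins p X ∪ ins p Y := union_subset_union hA.1 hB.1
  obtain ⟨h2, h3⟩ := M_closed hd h1
  refine ⟨by rw [M_ins h]; exact h1, ?_⟩
  intro C hC
  rw [M_cin_union h2 h3, mem_union, M_cin h2, M_cin h3, M_inter_left hd hA.1 hB.1,
    M_inter_right hd hA.1 hB.1] at hC
  rcases hC with hC | hC
  · exact hA.2 C hC
  · exact hB.2 C hC

theorem M_fam' {p : E → V × V} {X Y : Finset V} (hd : Disjoint X Y)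
    (h : ∀ x ∈ X, ∀ y ∈ Y, ¬ Adj p x y) {A : Finset E} (hA : A ∈ fam p (X ∪ Y)) :
    A ∩ ins p X ∈ fam p X ∧ A ∩ ins p Y ∈ fam p Y ∧ A ∩ ins p X ∪ A ∩ ins p Y = A := by
  rw [mem_fam, M_ins h] at hA
  obtain ⟨h2, h3⟩ := M_closed hd hA.1
  refine ⟨mem_fam.2 ⟨inter_subset_right, ?_⟩, mem_fam.2 ⟨inter_subset_right, ?_⟩, ?_⟩
  · intro C hC
    rw [← M_cin h2] at hC
    exact hA.2 C (by rw [M_cin_union h2 h3]; exact mem_union_left _ hC)
  · intro C hC
    rw [← M_cin h3] at hC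
    exact hA.2 C (by rw [M_cin_union h2 h3]; exact mem_union_right _ hC)
  · rw [← inter_union_distrib_left]
    exact inter_eq_left.2 hA.1

theorem M_term {p : E → V × V} {X Y : Finset V} (hd : Disjoint X Y)
    (h : ∀ x ∈ X, ∀ y ∈ Y, ¬ Adj p x y) {A B : Finset E} (hA : A ⊆ ins p X) (hB : B ⊆ ins p Y) :
    (A ∪ B).card = A.card + B.card ∧
      (ins p (X ∪ Y) \ (A ∪ B)).card = (ins p X \ A).card + (ins p Y \ B).card ∧
      (cin p (A ∪ B) (X ∪ Y)).card = (cin p A X).card + (cin p B Y).card := by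
  have hdi := M_ins_disj (p := p) hd
  refine ⟨card_union_of_disjoint (disjoint_of_subset_left hA (disjoint_of_subset_right hB hdi)),
    ?_, ?_⟩
  · have e1 : ins p (X ∪ Y) \ (A ∪ B) = (ins p X \ A) ∪ (ins p Y \ B) := by
      rw [M_ins h]
      ext e
      have h1 : ¬ (e ∈ ins p X ∧ e ∈ ins p Y) := fun h5 => Finset.disjoint_left.1 hdi h5.1 h5.2
      have h2 : e ∈ A → e ∈ ins p X := fun h5 => hA h5
      have h3 : e ∈ B → e ∈ ins p Y := fun h5 => hB h5
      simp only [mem_sdiff, mem_union]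
      tauto
    rw [e1]
    exact card_union_of_disjoint (disjoint_of_subset_left sdiff_subset
      (disjoint_of_subset_right sdiff_subset hdi))
  · have h1 : A ∪ B ⊆ ins p X ∪ ins p Y := union_subset_union hA hB
    obtain ⟨h2, h3⟩ := M_closed hd h1
    rw [M_cin_union h2 h3, card_union_of_disjoint (M_cin_disj hd), M_cin h2, M_cin h3,
      M_inter_left hd hA hB, M_inter_right hd hA hB]

end M

theorem P_M : S_M := by
  intro V E _ _ p X Y hd h
  refine ⟨?_, ?_, ?_⟩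
  · rw [M_ins h]
    exact card_union_of_disjoint (M_ins_disj hd)
  · rw [M_bd hd h]
    exact card_union_of_disjoint (M_bd_disj hd h)
  · intro z
    unfold q
    rw [sum_mul_sum, ← sum_product']
    refine Finset.sum_nbij' (fun A => (A ∩ ins p X, A ∩ ins p Y)) (fun y => y.1 ∪ y.2)
      ?_ ?_ ?_ ?_ ?_
    · intro A hA
      obtain ⟨h1, h2, _⟩ := M_fam' hd h hA
      exact mem_product.2 ⟨h1, h2⟩
    · intro y hy
      obtain ⟨h1, h2⟩ := mem_product.1 hy
      exact M_fam hd h h1 h2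
    · intro A hA
      exact (M_fam' hd h hA).2.2
    · intro y hy
      obtain ⟨h1, h2⟩ := mem_product.1 hy
      have h3 := (mem_fam.1 h1).1
      have h4 := (mem_fam.1 h2).1
      exact Prod.ext (M_inter_left hd h3 h4) (M_inter_right hd h3 h4)
    · intro A hA
      obtain ⟨h1, h2, h3⟩ := M_fam' hd h hA
      have h4 := (mem_fam.1 h1).1
      have h5 := (mem_fam.1 h2).1
      obtain ⟨t1, t2, t3⟩ := M_term hd h h4 h5
      rw [h3] at t1 t2 t3
      change z ^ A.card * (-1) ^ (ins p (X ∪ Y) \ A).card * (z - 1) ^ (cin p A (X ∪ Y)).card =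
        (z ^ (A ∩ ins p X).card * (-1) ^ (ins p X \ (A ∩ ins p X)).card *
          (z - 1) ^ (cin p (A ∩ ins p X) X).card) *
        (z ^ (A ∩ ins p Y).card * (-1) ^ (ins p Y \ (A ∩ ins p Y)).card *
          (z - 1) ^ (cin p (A ∩ ins p Y) Y).card)
      rw [t1, t2, t3, pow_add, pow_add, pow_add]
      ring

end Pool.Agent.Lib.MP_4a8162_co.FX
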