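import Pool.Agent.Lib.MP_4a8162_co.FX.Stm

set_option autoImplicit false

/-!
# MP_4a8162_co, FLOW ROOTS OF EXPANDERS: piece N (helper93)
-/

namespace Pool.Agent.Lib.MP_4a8162_co.FX

open Finset
open scoped Classical

section N

variable {V E : Type} [Fintype V] [Fintype E]

/-- the closed neighbourhood is covered by `W` and the other ends of the edges which leave `W` -/
private theorem N_nb (p : E → V × V) (W : Finset V) :
    (nb (Adj p) W).card ≤ W.card + (bd p W).card := by
  have h1 : nb (Adj p) W ⊆
      W ∪ (bd p W).image (fun e => if (p e).1 ∈ W then (p e).2 else (p e).1) := by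
    intro v hv
    rw [mem_union]
    by_cases hvW : v ∈ W
    · exact Or.inl hvW
    · right
      rcases mem_nb.1 hv with h | ⟨w, hw, e, he⟩
      · exact absurd h hvW
      · rw [mem_image]
        rcases he with he | he
        · refine ⟨e, ?_, ?_⟩
          · rw [mem_bd, he]
            exact fun h => hvW (h.1 hw)
          · rw [he]
            simp [hw]
        · refine ⟨e, ?_, ?_⟩
          · rw [mem_bd, he]
            exact fun h => hvW (h.2 hw)
          · rw [he]
            simp [hvW]
  refine (card_le_card h1).trans ((card_union_le _ _).trans ?_)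
  exact Nat.add_le_add_left card_image_le _

/-- counting the edges at the vertices of `W` -/
private theorem N_deg (p : E → V × V) (W : Finset V) (h : ∀ v ∈ W, 3 ≤ (bd p {v}).card) :
    3 * W.card ≤ 2 * ((ins p W).card + (bd p W).card) := by
  have hdisj : Disjoint (ins p W) (bd p W) := by
    rw [disjoint_left]
    intro e he he'
    have h1 := mem_ins.1 he
    exact (mem_bd.1 he') ⟨fun _ => h1.2, fun _ => h1.1⟩
  rw [← card_union_of_disjoint hdisj]
  have h1 : ∀ v ∈ W, (bd p {v}).card = ∑ e ∈ ins p W ∪ bd p W, if e ∈ bd p {v} then 1 else 0 := by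
    intro v hv
    rw [← Finset.sum_filter, Finset.sum_const, smul_eq_mul, mul_one]
    congr 1
    ext e
    rw [mem_filter]
    refine ⟨fun he => ⟨?_, he⟩, fun he => he.2⟩
    rw [mem_union, mem_ins, mem_bd]
    have h2 := mem_bd.1 he
    rw [mem_singleton, mem_singleton] at h2
    by_cases h3 : (p e).1 ∈ W
    · by_cases h4 : (p e).2 ∈ W
      · exact Or.inl ⟨h3, h4⟩
      · exact Or.inr fun h5 => h4 (h5.1 h3)
    · by_cases h4 : (p e).2 ∈ W
      · exact Or.inr fun h5 => h3 (h5.2 h4)
      · exfalso
        apply h2
        constructor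
        · intro h5
          exact absurd (h5 ▸ hv) h3
        · intro h5
          exact absurd (h5 ▸ hv) h4
  calc 3 * W.card = ∑ _v ∈ W, 3 := by rw [Finset.sum_const, smul_eq_mul, mul_comm]
    _ ≤ ∑ v ∈ W, (bd p {v}).card := Finset.sum_le_sum h
    _ = ∑ v ∈ W, ∑ e ∈ ins p W ∪ bd p W, (if e ∈ bd p {v} then 1 else 0) :=
        Finset.sum_congr rfl h1
    _ = ∑ e ∈ ins p W ∪ bd p W, ∑ v ∈ W, (if e ∈ bd p {v} then 1 else 0) := Finset.sum_comm
    _ ≤ ∑ _e ∈ ins p W ∪ bd p W, 2 := by
        refine Finset.sum_le_sum ?_
        intro e _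
        rw [← Finset.sum_filter, Finset.sum_const, smul_eq_mul, mul_one]
        have h3 : W.filter (fun v => e ∈ bd p {v}) ⊆ {(p e).1, (p e).2} := by
          intro v hv
          have h2 := mem_bd.1 (mem_filter.1 hv).2
          rw [mem_singleton, mem_singleton] at h2
          rw [mem_insert, mem_singleton]
          by_cases h5 : (p e).1 = v
          · exact Or.inl h5.symm
          · by_cases h6 : (p e).2 = v
            · exact Or.inr h6.symm
            · exact absurd ⟨fun h => absurd h h5, fun h => absurd h h6⟩ h2
        exact (card_le_card h3).trans card_le_two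
    _ = 2 * (ins p W ∪ bd p W).card := by rw [Finset.sum_const, smul_eq_mul, mul_comm]

end N

theorem P_N : S_N := by
  intro V E _ _ p hE h3 W hW
  by_cases hV : ∃ v ∈ W, ({v} : Finset V) = univ
  · obtain ⟨v, hv, huniv⟩ := hV
    have h1 : (nb (Adj p) W).card ≤ 1 := by
      refine (card_le_card (subset_univ _)).trans ?_
      rw [← huniv, card_singleton]
    have h2 : ins p W = univ := by
      ext e
      have hWu : W = univ := by
        rw [eq_univ_iff_forall]
        intro x
        have hx : x ∈ ({v} : Finset V) := by rw [huniv]; exact mem_univ x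
        rw [mem_singleton.1 hx]
        exact hv
      simp [mem_ins, hWu]
    have h4 : 0 < (ins p W).card := by
      rw [h2, card_univ]
      exact Fintype.card_pos
    omega
  · have h4 : ∀ v ∈ W, 3 ≤ (bd p {v}).card := by
      intro v hv
      exact h3 {v} (singleton_nonempty v) fun h => hV ⟨v, hv, h⟩
    have h5 := N_nb p W
    have h6 := N_deg p W h4
    omega

end Pool.Agent.Lib.MP_4a8162_co.FX
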