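import Pool.Agent.Lib.MP_4a8162_co.FX.Stm

set_option autoImplicit false

/-!
# MP_4a8162_co, FLOW ROOTS OF EXPANDERS, piece REC
-/

namespace Pool.Agent.Lib.MP_4a8162_co.FX

open Finset
open scoped Classical

section

variable {Ω : Type} [Fintype Ω] {adj : Ω → Ω → Prop}

/-- no element of `K` is adjacent to an element of `W \ K` -/
private def REC_cld (adj : Ω → Ω → Prop) (W K : Finset Ω) : Prop :=
  ∀ a ∈ K, ∀ b ∈ W \ K, ¬ adj a b

/-- the component of `v` in `W` -/
private noncomputable def REC_comp (adj : Ω → Ω → Prop) (v : Ω) (W : Finset Ω) : Finset Ω :=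
  W.filter fun x => ∀ L ⊆ W, v ∈ L → REC_cld adj W L → x ∈ L

private theorem REC_mem {v x : Ω} {W : Finset Ω} : x ∈ REC_comp adj v W ↔
    x ∈ W ∧ ∀ L ⊆ W, v ∈ L → REC_cld adj W L → x ∈ L := by
  simp [REC_comp]

private theorem REC_self {v : Ω} {W : Finset Ω} (hv : v ∈ W) : v ∈ REC_comp adj v W :=
  REC_mem.2 ⟨hv, fun _ _ h _ => h⟩

private theorem REC_sub {v : Ω} {W : Finset Ω} : REC_comp adj v W ⊆ W :=
  fun _ h => (REC_mem.1 h).1

private theorem REC_closed (v : Ω) (W : Finset Ω) : REC_cld adj W (REC_comp adj v W) := by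
  intro a ha b hb hab
  rw [mem_sdiff, REC_mem] at hb
  apply hb.2
  refine ⟨hb.1, fun L hL hvL hc => ?_⟩
  by_contra hbL
  exact hc a ((REC_mem.1 ha).2 L hL hvL hc) b (mem_sdiff.2 ⟨hb.1, hbL⟩) hab

private theorem REC_conn (hs : ∀ x y, adj x y → adj y x) {v : Ω} {W : Finset Ω} (hv : v ∈ W) :
    Conn adj (REC_comp adj v W) := by
  intro B hB hne hBK
  by_contra hc
  push Not at hc
  by_cases hvB : v ∈ B
  · apply hBK
    apply Subset.antisymm hB
    intro x hx
    refine (REC_mem.1 hx).2 B (hB.trans REC_sub) hvB ?_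
    intro a ha b hb
    rw [mem_sdiff] at hb
    by_cases hbK : b ∈ REC_comp adj v W
    · exact hc a ha b (mem_sdiff.2 ⟨hbK, hb.2⟩)
    · exact REC_closed v W a (hB ha) b (mem_sdiff.2 ⟨hb.1, hbK⟩)
  · obtain ⟨x, hx⟩ := hne
    have h1 : x ∈ REC_comp adj v W \ B := by
      refine (REC_mem.1 (hB hx)).2 _ (sdiff_subset.trans REC_sub)
        (mem_sdiff.2 ⟨REC_self hv, hvB⟩) ?_
      intro a ha b hb hab
      rw [mem_sdiff] at ha hb
      by_cases hbB : b ∈ B
      · exact hc b hbB a (mem_sdiff.2 ha) (hs a b hab)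
      · have hbK : b ∉ REC_comp adj v W := fun h => hb.2 (mem_sdiff.2 ⟨h, hbB⟩)
        exact REC_closed v W a ha.1 b (mem_sdiff.2 ⟨hb.1, hbK⟩) hab
    exact (mem_sdiff.1 h1).2 hx

private theorem REC_unique {v : Ω} {W K : Finset Ω} (hvK : v ∈ K) (hK : K ⊆ W)
    (hc : REC_cld adj W K) (hcon : Conn adj K) : REC_comp adj v W = K := by
  have h1 : REC_comp adj v W ⊆ K := fun x hx => (REC_mem.1 hx).2 K hK hvK hc
  by_contra hne
  obtain ⟨x, hx, y, hy, hxy⟩ := hcon _ h1 ⟨v, REC_self (hK hvK)⟩ hne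
  rw [mem_sdiff] at hy
  exact REC_closed v W x hx y (mem_sdiff.2 ⟨hK hy.1, hy.2⟩) hxy

end

theorem P_REC : S_REC := by
  intro Ω _ adj hs u hu S v hvS
  have h0 : ∑ W ∈ (insert v S).powerset, u W =
      ∑ W ∈ ((insert v S).powerset.filter fun W => v ∉ W), u W +
        ∑ W ∈ ((insert v S).powerset.filter fun W => v ∈ W), u W := by
    rw [add_comm]
    exact (sum_filter_add_sum_filter_not _ _ _).symm
  have h1 : ((insert v S).powerset.filter fun W => v ∉ W) = S.powerset := by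
    ext W
    rw [mem_filter, mem_powerset, mem_powerset]
    constructor
    · rintro ⟨h, hv⟩ x hx
      rcases mem_insert.1 (h hx) with rfl | h'
      · exact absurd hx hv
      · exact h'
    · intro h
      exact ⟨h.trans (subset_insert _ _), fun hv => hvS (h hv)⟩
  rw [h0, h1]
  congr 1
  have hmaps : ∀ W ∈ ((insert v S).powerset.filter fun W => v ∈ W),
      REC_comp adj v W ∈ (cs adj v).filter (fun K => K ⊆ insert v S) := by
    intro W hW
    rw [mem_filter, mem_powerset] at hW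
    rw [mem_filter, mem_cs]
    exact ⟨⟨REC_self hW.2, REC_conn hs hW.2⟩, REC_sub.trans hW.1⟩
  rw [← sum_fiberwise_of_maps_to hmaps]
  refine sum_congr rfl fun K hK => ?_
  rw [mem_filter, mem_cs] at hK
  obtain ⟨⟨hvK, hcon⟩, hKS⟩ := hK
  rw [mul_sum]
  symm
  refine sum_bij' (fun W' _ => K ∪ W') (fun W _ => W \ K) ?_ ?_ ?_ ?_ ?_
  · intro W' hW'
    rw [mem_powerset] at hW'
    rw [mem_filter, mem_filter, mem_powerset]
    refine ⟨⟨union_subset hKS ((hW'.trans sdiff_subset).trans (subset_insert _ _)),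
      mem_union_left _ hvK⟩, ?_⟩
    refine REC_unique hvK subset_union_left ?_ hcon
    intro a ha b hb hab
    rw [mem_sdiff, mem_union] at hb
    have hb' : b ∈ W' := hb.1.resolve_left hb.2
    exact (mem_sdiff.1 (hW' hb')).2 (mem_nb.2 (Or.inr ⟨a, ha, hab⟩))
  · intro W hW
    rw [mem_filter, mem_filter, mem_powerset] at hW
    obtain ⟨⟨hWS, hvW⟩, hcomp⟩ := hW
    rw [mem_powerset]
    intro x hx
    rw [mem_sdiff] at hx
    rw [mem_sdiff, mem_nb]
    constructor
    · rcases mem_insert.1 (hWS hx.1) with rfl | h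
      · exact absurd hvK hx.2
      · exact h
    · rintro (h | ⟨w, hw, hwx⟩)
      · exact hx.2 h
      · have h2 := REC_closed (adj := adj) v W
        rw [hcomp] at h2
        exact h2 w hw x (mem_sdiff.2 hx) hwx
  · intro W' hW'
    rw [mem_powerset] at hW'
    show (K ∪ W') \ K = W'
    ext x
    rw [mem_sdiff, mem_union]
    constructor
    · rintro ⟨h | h, h'⟩
      · exact absurd h h'
      · exact h
    · intro h
      exact ⟨Or.inr h, fun hxK => (mem_sdiff.1 (hW' h)).2 (mem_nb.2 (Or.inl hxK))⟩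
  · intro W hW
    rw [mem_filter, mem_filter, mem_powerset] at hW
    obtain ⟨⟨hWS, hvW⟩, hcomp⟩ := hW
    have hKW : K ⊆ W := by
      rw [← hcomp]
      exact REC_sub
    exact union_sdiff_of_subset hKW
  · intro W' hW'
    rw [mem_powerset] at hW'
    refine (hu K W' ?_ ?_).symm
    · rw [disjoint_left]
      intro x hxK hx
      exact (mem_sdiff.1 (hW' hx)).2 (mem_nb.2 (Or.inl hxK))
    · intro x hx y hy hxy
      exact (mem_sdiff.1 (hW' hy)).2 (mem_nb.2 (Or.inr ⟨x, hx, hxy⟩))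

end Pool.Agent.Lib.MP_4a8162_co.FX
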