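import Pool.Agent.Lib.MP_4a8162_co.FX.Stm

set_option autoImplicit false

namespace Pool.Agent.Lib.MP_4a8162_co.FX

open Finset
open scoped Classical

theorem T_mem_union {V : Type} [Fintype V] (T : Finset (Finset V)) (v : V) :
    v ∈ T.biUnion id ↔ ∃ C ∈ T, v ∈ C := by
  simp

theorem T_closed {V E : Type} [Fintype V] [Fintype E] {p : E → V × V} {A : Finset E}
    {T : Finset (Finset V)} (hT : T ⊆ cc p A) : Closed p A (T.biUnion id) := by
  intro e he
  rw [T_mem_union, T_mem_union]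
  constructor
  · rintro ⟨C, hC, hv⟩
    obtain ⟨v, rfl⟩ := mem_cc.1 (hT hC)
    exact ⟨_, hC, (closed_cl p A v e he).1 hv⟩
  · rintro ⟨C, hC, hv⟩
    obtain ⟨v, rfl⟩ := mem_cc.1 (hT hC)
    exact ⟨_, hC, (closed_cl p A v e he).2 hv⟩

theorem T_cin {V E : Type} [Fintype V] [Fintype E] {p : E → V × V} {A : Finset E}
    {T : Finset (Finset V)} (hT : T ⊆ cc p A) : cin p A (T.biUnion id) = T := by
  ext C
  rw [mem_cin]
  constructor
  · rintro ⟨hC, hsub⟩
    obtain ⟨v, rfl⟩ := mem_cc.1 hC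
    obtain ⟨C', hC', hv⟩ := (T_mem_union T v).1 (hsub (self_mem_cl p A v))
    rw [mem_cc_iff (hT hC') hv]
    exact hC'
  · intro hC
    refine ⟨hT hC, fun v hv => (T_mem_union T v).2 ⟨C, hC, hv⟩⟩

theorem T_union {V E : Type} [Fintype V] [Fintype E] {p : E → V × V} {A : Finset E}
    {W : Finset V} (hW : Closed p A W) : (cin p A W).biUnion id = W := by
  ext v
  rw [T_mem_union]
  constructor
  · rintro ⟨C, hC, hv⟩
    exact (mem_cin.1 hC).2 hv
  · intro hv
    exact ⟨cl p A v, mem_cin.2 ⟨mem_cc.2 ⟨v, rfl⟩, cl_subset hW hv⟩, self_mem_cl p A v⟩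

theorem P_T : S_T := by
  intro V E _ _ p A x
  have h1 := Finset.sum_pow_mul_eq_add_pow (x - 1) 1 ((cc p A).filter (fun C => sm p C))
  rw [sub_add_cancel] at h1
  rw [← h1]
  refine Finset.sum_nbij' (fun T => T.biUnion id) (fun W => cin p A W) ?_ ?_ ?_ ?_ ?_
  · intro T hT
    rw [mem_powerset] at hT
    have hT' : T ⊆ cc p A := fun C hC => (mem_filter.1 (hT hC)).1
    rw [mem_filter]
    refine ⟨mem_univ _, T_closed hT', ?_⟩
    rw [T_cin hT']
    exact fun C hC => (mem_filter.1 (hT hC)).2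
  · intro W hW
    rw [mem_filter] at hW
    rw [mem_powerset]
    intro C hC
    exact mem_filter.2 ⟨(mem_cin.1 hC).1, hW.2.2 C hC⟩
  · intro T hT
    rw [mem_powerset] at hT
    exact T_cin fun C hC => (mem_filter.1 (hT hC)).1
  · intro W hW
    rw [mem_filter] at hW
    exact T_union hW.2.1
  · intro T hT
    rw [mem_powerset] at hT
    rw [T_cin fun C hC => (mem_filter.1 (hT hC)).1, one_pow, mul_one]

end Pool.Agent.Lib.MP_4a8162_co.FX
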