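import Pool.Agent.Lib.MP_4a8162_co.FX.Bridge
import Pool.Agent.Lib.MP_4a8162_co.FX.P_CNT
import Pool.Agent.Lib.MP_4a8162_co.FX.P_REC
import Pool.Agent.Lib.MP_4a8162_co.FX.P_GAS
import Pool.Agent.Lib.MP_4a8162_co.FX.P_T
import Pool.Agent.Lib.MP_4a8162_co.FX.P_F
import Pool.Agent.Lib.MP_4a8162_co.FX.P_M
import Pool.Agent.Lib.MP_4a8162_co.FX.P_B
import Pool.Agent.Lib.MP_4a8162_co.FX.P_N

set_option autoImplicit false

namespace Pool.Agent.Lib.MP_4a8162_co.FX.Expander

open Pool.Agent.Lib.MP_4a8162_co.FX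

/-- The edges which join `S` to its complement, in the graph with the vertices `Fin m` and the
edges `E` in which the edge `e` joins the vertices `(ends e).1` and `(ends e).2`. -/
def cut {m : ℕ} (ends : ℕ → Fin m × Fin m) (E : Set ℕ) (S : Set (Fin m)) : Set ℕ :=
  {e | e ∈ E ∧ ¬ ((ends e).1 ∈ S ↔ (ends e).2 ∈ S)}

/-- The edges of that graph with both ends in `S`. -/
def inside {m : ℕ} (ends : ℕ → Fin m × Fin m) (E : Set ℕ) (S : Set (Fin m)) : Set ℕ :=
  {e | e ∈ E ∧ (ends e).1 ∈ S ∧ (ends e).2 ∈ S}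

/-- Let `M` be the dual of the cycle matroid of a finite graph (`M` is the bond matroid; its
characteristic polynomial is the flow polynomial of the graph) which is 3-edge-connected and such
that for every set `S` of vertices, `S` or its complement spans at most `K` times as many edges as
there are between `S` and its complement. Then the characteristic polynomial of `M` has no complex
zero `x` with `|x| ≥ 2 ^ (37 (K + 1))`. -/
theorem result (K m : ℕ) (ends : ℕ → Fin m × Fin m) (M : Matroid ℕ) (hM : M.Finite)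
    (hG : ∀ I : Set ℕ, M.dual.Indep I ↔ (I ⊆ M.E ∧ LinearIndependent ℚ
      (fun x : I => (Pi.single (ends x).1 (1 : ℚ) - Pi.single (ends x).2 (1 : ℚ) : Fin m → ℚ))))
    (h3 : ∀ S : Set (Fin m), S.Nonempty → S ≠ Set.univ → 3 ≤ (cut ends M.E S).ncard)
    (hK : ∀ S : Set (Fin m), min (inside ends M.E S).ncard (inside ends M.E Sᶜ).ncard ≤
      K * (cut ends M.E S).ncard)
    (E : Finset ℕ) (hE : (E : Set ℕ) = M.E) (x : ℂ) (hx : 2 ^ (37 * (K + 1)) ≤ ‖x‖) :
    (∑ X ∈ E.powerset, (-1 : ℂ) ^ X.card *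
      x ^ (sSup {n : ℕ | ∃ I ⊆ M.E, M.Indep I ∧ I.ncard = n}
           - sSup {n : ℕ | ∃ I ⊆ (X : Set ℕ), M.Indep I ∧ I.ncard = n})) ≠ 0 := by
  classical
  intro h0
  have h1 := char_eq M hM ends hG E hE x
  have h2 : ∑ X ∈ E.powerset, (-1 : ℂ) ^ X.card *
      x ^ (Pool.Agent.Lib.MP_4a8162_co.rks M M.E -
        Pool.Agent.Lib.MP_4a8162_co.rks M (X : Set ℕ)) = 0 := h0
  rw [h2, mul_zero] at h1
  have hc : ∀ S : Finset (Fin m), (cut ends M.E (S : Set (Fin m))).ncard =
      (bd (fun i : {i // i ∈ E} => ends i) S).card := by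
    intro S
    have h4 : cut ends M.E (S : Set (Fin m)) =
        (((bd (fun i : {i // i ∈ E} => ends i) S).map (Function.Embedding.subtype _) :
          Finset ℕ) : Set ℕ) := by
      ext e
      rw [Finset.mem_coe, Finset.mem_map]
      constructor
      · rintro ⟨he, h⟩
        rw [← hE, Finset.mem_coe] at he
        exact ⟨⟨e, he⟩, mem_bd.2 h, rfl⟩
      · rintro ⟨e', he', rfl⟩
        have h6 := mem_bd.1 he'
        refine ⟨?_, h6⟩
        rw [← hE]
        exact e'.2
    rw [h4, Set.ncard_coe_finset, Finset.card_map]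
  have hi : ∀ S : Finset (Fin m), (inside ends M.E (S : Set (Fin m))).ncard =
      (ins (fun i : {i // i ∈ E} => ends i) S).card := by
    intro S
    have h4 : inside ends M.E (S : Set (Fin m)) =
        (((ins (fun i : {i // i ∈ E} => ends i) S).map (Function.Embedding.subtype _) :
          Finset ℕ) : Set ℕ) := by
      ext e
      rw [Finset.mem_coe, Finset.mem_map]
      constructor
      · rintro ⟨he, h⟩
        rw [← hE, Finset.mem_coe] at he
        exact ⟨⟨e, he⟩, mem_ins.2 h, rfl⟩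
      · rintro ⟨e', he', rfl⟩
        have h6 := mem_ins.1 he'
        refine ⟨?_, h6⟩
        rw [← hE]
        exact e'.2
    rw [h4, Set.ncard_coe_finset, Finset.card_map]
  have h5 : Fintype.card {i // i ∈ E} = E.card := Fintype.card_coe E
  rw [← h5] at h1
  refine flow_ne' P_CNT P_REC P_GAS P_T P_F P_M P_B P_N (fun i : {i // i ∈ E} => ends i) K
    ?_ ?_ x hx h1.symm
  · intro S hS hS'
    rw [← hc]
    refine h3 _ ?_ ?_
    · obtain ⟨v, hv⟩ := hS
      exact ⟨v, Finset.mem_coe.2 hv⟩
    · intro h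
      exact hS' (Finset.coe_injective (h.trans Finset.coe_univ.symm))
  · intro S T hST
    have h6 := hK (S : Set (Fin m))
    have h7 : (S : Set (Fin m))ᶜ = (T : Set (Fin m)) := by
      ext v
      rw [Set.mem_compl_iff, Finset.mem_coe, Finset.mem_coe]
      exact (hST v).symm
    rw [h7, hc, hi, hi, min_le_iff] at h6
    exact h6

end Pool.Agent.Lib.MP_4a8162_co.FX.Expander
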