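import Pool.Agent.Lib.MP_4a8162_co.FX.Stm

set_option autoImplicit false

/-!
# MP_4a8162_co, FLOW ROOTS OF EXPANDERS: the assembly
-/

namespace Pool.Agent.Lib.MP_4a8162_co.FX

open Finset
open scoped Classical

section

variable {V E : Type} [Fintype V] [Fintype E]

theorem cl_nonempty_of_mem {p : E → V × V} {A : Finset E} {C : Finset V} (h : C ∈ cc p A) :
    C.Nonempty := by
  obtain ⟨v, rfl⟩ := mem_cc.1 h
  exact ⟨v, self_mem_cl p A v⟩

/-- the identity for the sum in which the component with more than half of the edges has weight 1 -/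
theorem Q_id (hT : S_T) (hF : S_F) (p : E → V × V) (x : ℂ) :
    ∑ A : Finset E, x ^ A.card * (-1) ^ (Aᶜ).card *
        x ^ ((cc p A).filter (fun C => sm p C)).card =
      ∑ W : Finset V, (x - 1) ^ (ins p Wᶜ).card * (-1) ^ (bd p W).card * q p x W := by
  have h1 : ∀ A : Finset E, x ^ A.card * (-1) ^ (Aᶜ).card *
      x ^ ((cc p A).filter (fun C => sm p C)).card =
      ∑ W : Finset V, if (Closed p A W ∧ ∀ C ∈ cin p A W, sm p C) then
        x ^ A.card * (-1) ^ (Aᶜ).card * (x - 1) ^ (cin p A W).card else 0 := by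
    intro A
    rw [hT V E p A x, mul_sum, sum_filter]
  rw [sum_congr rfl (fun A _ => h1 A), sum_comm]
  refine sum_congr rfl fun W _ => ?_
  rw [← hF V E p W x, sum_filter]

/-- at most one component is not small -/
theorem card_not_sm (p : E → V × V) (A : Finset E) :
    ((cc p A).filter (fun C => ¬ sm p C)).card ≤ 1 := by
  rw [card_le_one]
  intro C hC D hD
  by_contra hne
  rw [mem_filter] at hC hD
  have hdis : Disjoint C D := by
    rw [disjoint_left]
    intro v hv hv'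
    exact hne ((mem_cc_iff hC.1 hv).symm.trans (mem_cc_iff hD.1 hv'))
  have h1 : (ins p D).card ≤ (ins p Cᶜ).card := by
    apply card_le_card
    intro e he
    rw [mem_ins] at he ⊢
    rw [mem_compl, mem_compl]
    exact ⟨fun h => disjoint_left.1 hdis h he.1, fun h => disjoint_left.1 hdis h he.2⟩
  have h2 : (ins p C).card ≤ (ins p Dᶜ).card := by
    apply card_le_card
    intro e he
    rw [mem_ins] at he ⊢
    rw [mem_compl, mem_compl]
    exact ⟨fun h => disjoint_left.1 hdis he.1 h, fun h => disjoint_left.1 hdis he.2 h⟩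
  have h3 := hC.2
  have h4 := hD.2
  unfold sm at h3 h4
  omega

/-- the sum over all sets of edges, with weight `x` for all components -/
theorem P_eq (p : E → V × V) (x : ℂ) :
    ∑ A : Finset E, x ^ A.card * (-1) ^ (Aᶜ).card * x ^ (cc p A).card =
      x * ∑ A : Finset E, x ^ A.card * (-1) ^ (Aᶜ).card *
        x ^ ((cc p A).filter (fun C => sm p C)).card -
      (x - 1) * ∑ A ∈ univ.filter (fun A : Finset E => ∀ C ∈ cc p A, sm p C),
        x ^ A.card * (-1) ^ (Aᶜ).card * x ^ (cc p A).card := by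
  rw [mul_sum, mul_sum, sum_filter, ← sum_sub_distrib]
  refine sum_congr rfl fun A _ => ?_
  have h1 := card_filter_add_card_filter_not (s := cc p A) (fun C => sm p C)
  have h2 := card_not_sm p A
  split_ifs with h
  · have h3 : (cc p A).filter (fun C => sm p C) = cc p A := filter_true_of_mem h
    rw [h3]
    ring
  · have h3 : ((cc p A).filter (fun C => ¬ sm p C)).card = 1 := by
      push Not at h
      obtain ⟨C, hC, hC'⟩ := h
      have : 0 < ((cc p A).filter (fun C => ¬ sm p C)).card :=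
        card_pos.2 ⟨C, mem_filter.2 ⟨hC, hC'⟩⟩
      omega
    rw [← h1, h3, pow_succ]
    ring

theorem cin_empty (p : E → V × V) (A : Finset E) : cin p A ∅ = ∅ := by
  rw [eq_empty_iff_forall_notMem]
  intro C hC
  rw [mem_cin] at hC
  obtain ⟨v, hv⟩ := cl_nonempty_of_mem hC.1
  exact absurd (hC.2 hv) (notMem_empty v)

theorem ins_empty (p : E → V × V) : ins p ∅ = ∅ := by
  ext e
  simp [mem_ins]

theorem q_empty (p : E → V × V) (x : ℂ) : q p x ∅ = 1 := by
  have h : fam p (∅ : Finset V) = {∅} := by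
    ext A
    rw [mem_fam, mem_singleton, ins_empty, cin_empty, subset_empty]
    simp
  unfold q
  rw [h, sum_singleton, ins_empty, cin_empty]
  simp

theorem ins_univ (p : E → V × V) : ins p (univ : Finset V) = univ := by
  ext e
  simp [mem_ins]

theorem bd_univ (p : E → V × V) : bd p (univ : Finset V) = ∅ := by
  ext e
  simp [mem_bd]

theorem bd_empty (p : E → V × V) : bd p (∅ : Finset V) = ∅ := by
  ext e
  simp [mem_bd]

theorem cin_univ (p : E → V × V) (A : Finset E) : cin p A univ = cc p A := by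
  ext C
  simp [mem_cin]

theorem card_split (p : E → V × V) (W : Finset V) :
    (ins p W).card + (bd p W).card + (ins p Wᶜ).card = Fintype.card E := by
  have h1 : Disjoint (ins p W) (bd p W) := by
    rw [disjoint_left]
    intro e he
    rw [mem_ins] at he
    rw [mem_bd]
    tauto
  have h2 : Disjoint (ins p W ∪ bd p W) (ins p Wᶜ) := by
    rw [disjoint_left]
    intro e he
    rw [mem_union, mem_ins, mem_bd] at he
    rw [mem_ins, mem_compl, mem_compl]
    tauto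
  have h3 : (ins p W ∪ bd p W) ∪ ins p Wᶜ = univ := by
    ext e
    rw [mem_union, mem_union, mem_ins, mem_bd, mem_ins, mem_compl, mem_compl]
    simp only [mem_univ, iff_true]
    tauto
  rw [← card_union_of_disjoint h1, ← card_union_of_disjoint h2, h3, card_univ]

/-- the arithmetic of the exponents -/
theorem pow_bound {Y : ℝ} {K t m c : ℕ} (hY : (64 : ℝ) ^ (6 * (K + 1)) ≤ Y)
    (h1 : 3 * c ≤ 2 * m) (h2 : t ≤ 2 * (K + 1) * m) (hmt : m ≤ t) :
    (64 : ℝ) ^ t * Y ^ (t - m + c) ≤ Y ^ t := by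
  have hY0 : (1 : ℝ) ≤ Y := le_trans (one_le_pow₀ (by norm_num)) hY
  have h3 : t ≤ 6 * (K + 1) * (m - c) := by
    have h4 : m ≤ 3 * (m - c) := by omega
    calc t ≤ 2 * (K + 1) * m := h2
      _ ≤ 2 * (K + 1) * (3 * (m - c)) := Nat.mul_le_mul_left _ h4
      _ = 6 * (K + 1) * (m - c) := by ring
  have h5 : (64 : ℝ) ^ t ≤ Y ^ (m - c) := by
    calc (64 : ℝ) ^ t ≤ 64 ^ (6 * (K + 1) * (m - c)) := pow_le_pow_right₀ (by norm_num) h3
      _ = (64 ^ (6 * (K + 1))) ^ (m - c) := pow_mul _ _ _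
      _ ≤ Y ^ (m - c) := pow_le_pow_left₀ (by positivity) hY _
  calc (64 : ℝ) ^ t * Y ^ (t - m + c) ≤ Y ^ (m - c) * Y ^ (t - m + c) := by gcongr
    _ = Y ^ t := by
      rw [← pow_add]
      congr 1
      omega

/-- the normalised weight -/
noncomputable def uw (p : E → V × V) (x : ℂ) (W : Finset V) : ℂ :=
  (-1) ^ (bd p W).card * q p x W / (x - 1) ^ ((ins p W).card + (bd p W).card)

theorem norm_q (hB : S_B) (p : E → V × V) (K : ℕ) (hE : Nonempty E)
    (h3 : ∀ S : Finset V, S.Nonempty → S ≠ univ → 3 ≤ (bd p S).card)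
    (hK : ∀ S : Finset V, (ins p S).card ≤ K * (bd p S).card ∨
      (ins p Sᶜ).card ≤ K * (bd p S).card)
    (x : ℂ) (hY : (64 : ℝ) ^ (6 * (K + 1)) ≤ ‖x - 1‖) (hXY : ‖x‖ ≤ 2 * ‖x - 1‖) (W : Finset V) :
    (16 : ℝ) ^ ((ins p W).card + (bd p W).card) * ‖q p x W‖ ≤
      ‖x - 1‖ ^ ((ins p W).card + (bd p W).card) := by
  set Y := ‖x - 1‖ with hYdef
  set t := (ins p W).card + (bd p W).card with ht
  have hY0 : (1 : ℝ) ≤ Y := le_trans (one_le_pow₀ (by norm_num)) hY
  have h1 : ∀ A ∈ fam p W, (64 : ℝ) ^ t *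
      ‖x ^ A.card * (-1) ^ (ins p W \ A).card * (x - 1) ^ (cin p A W).card‖ ≤ 2 ^ t * Y ^ t := by
    intro A hA
    obtain ⟨h4, h5⟩ := hB V E p K hE h3 hK W A hA
    have hAs : A ⊆ ins p W := (mem_fam.1 hA).1
    have h6 : (ins p W \ A).card + A.card = (ins p W).card := card_sdiff_add_card_eq_card hAs
    rw [norm_mul, norm_mul, norm_pow, norm_pow, norm_pow, norm_neg, norm_one, one_pow, mul_one]
    have h7 : ‖x‖ ^ A.card ≤ 2 ^ t * Y ^ A.card := by
      calc ‖x‖ ^ A.card ≤ (2 * Y) ^ A.card := pow_le_pow_left₀ (norm_nonneg _) hXY _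
        _ = 2 ^ A.card * Y ^ A.card := mul_pow _ _ _
        _ ≤ 2 ^ t * Y ^ A.card := by
          gcongr
          · norm_num
          · omega
    have h8 := pow_bound (t := t) hY h4 h5 (by omega)
    have h9 : t - ((ins p W \ A).card + (bd p W).card) + (cin p A W).card =
        A.card + (cin p A W).card := by omega
    rw [h9, pow_add Y] at h8
    calc (64 : ℝ) ^ t * (‖x‖ ^ A.card * Y ^ (cin p A W).card)
        ≤ 64 ^ t * ((2 ^ t * Y ^ A.card) * Y ^ (cin p A W).card) := by gcongr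
      _ = 2 ^ t * (64 ^ t * (Y ^ A.card * Y ^ (cin p A W).card)) := by ring
      _ ≤ 2 ^ t * Y ^ t := by gcongr
  have h2 : (64 : ℝ) ^ t * ‖q p x W‖ ≤ (fam p W).card * (2 ^ t * Y ^ t) := by
    calc (64 : ℝ) ^ t * ‖q p x W‖ ≤ 64 ^ t * ∑ A ∈ fam p W,
        ‖x ^ A.card * (-1) ^ (ins p W \ A).card * (x - 1) ^ (cin p A W).card‖ := by
          gcongr
          exact norm_sum_le _ _
      _ = ∑ A ∈ fam p W, 64 ^ t *
        ‖x ^ A.card * (-1) ^ (ins p W \ A).card * (x - 1) ^ (cin p A W).card‖ := mul_sum _ _ _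
      _ ≤ ∑ A ∈ fam p W, 2 ^ t * Y ^ t := sum_le_sum h1
      _ = (fam p W).card * (2 ^ t * Y ^ t) := by rw [sum_const, nsmul_eq_mul]
  have h3' : ((fam p W).card : ℝ) ≤ 2 ^ t := by
    have h4 : (fam p W).card ≤ 2 ^ (ins p W).card := by
      rw [← card_powerset]
      exact card_filter_le _ _
    calc ((fam p W).card : ℝ) ≤ ((2 ^ (ins p W).card : ℕ) : ℝ) := by exact_mod_cast h4
      _ = 2 ^ (ins p W).card := by push_cast; rfl
      _ ≤ 2 ^ t := pow_le_pow_right₀ (by norm_num) (by omega)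
  have h4 : (64 : ℝ) ^ t * ‖q p x W‖ ≤ 2 ^ t * (2 ^ t * Y ^ t) := h2.trans (by gcongr)
  have h5 : (64 : ℝ) ^ t = 4 ^ t * 16 ^ t := by rw [← mul_pow]; norm_num
  have h6 : (2 : ℝ) ^ t * (2 ^ t * Y ^ t) = 4 ^ t * Y ^ t := by
    rw [← mul_assoc, ← mul_pow]; norm_num
  rw [h5, h6, mul_assoc] at h4
  exact le_of_mul_le_mul_left h4 (by positivity)

theorem norm_uw (hB : S_B) (hN : S_N) (p : E → V × V) (K : ℕ) (hE : Nonempty E)
    (h3 : ∀ S : Finset V, S.Nonempty → S ≠ univ → 3 ≤ (bd p S).card)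
    (hK : ∀ S : Finset V, (ins p S).card ≤ K * (bd p S).card ∨
      (ins p Sᶜ).card ≤ K * (bd p S).card)
    (x : ℂ) (hY : (64 : ℝ) ^ (6 * (K + 1)) ≤ ‖x - 1‖) (hXY : ‖x‖ ≤ 2 * ‖x - 1‖) (W : Finset V)
    (hW : W.Nonempty) : ‖uw p x W‖ ≤ (1 / 4 : ℝ) ^ (nb (Adj p) W).card := by
  have hY0 : (1 : ℝ) ≤ ‖x - 1‖ := le_trans (one_le_pow₀ (by norm_num)) hY
  have h1 := norm_q hB p K hE h3 hK x hY hXY W
  have h2 := hN V E p hE h3 W hW
  set t := (ins p W).card + (bd p W).card with ht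
  have h4 : ‖uw p x W‖ ≤ (1 / 16 : ℝ) ^ t := by
    unfold uw
    rw [norm_div, norm_mul, norm_pow, norm_pow, norm_neg, norm_one, one_pow, one_mul, ← ht,
      div_le_iff₀ (by positivity), one_div, inv_pow]
    rw [inv_mul_eq_div, le_div_iff₀ (by positivity)]
    linarith
  calc ‖uw p x W‖ ≤ (1 / 16 : ℝ) ^ t := h4
    _ = (1 / 4 : ℝ) ^ (2 * t) := by rw [pow_mul]; norm_num
    _ ≤ (1 / 4 : ℝ) ^ (nb (Adj p) W).card :=
      pow_le_pow_of_le_one (by norm_num) (by norm_num) h2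

theorem norm_Pn (hB : S_B) (p : E → V × V) (K : ℕ) (hE : Nonempty E)
    (h3 : ∀ S : Finset V, S.Nonempty → S ≠ univ → 3 ≤ (bd p S).card)
    (hK : ∀ S : Finset V, (ins p S).card ≤ K * (bd p S).card ∨
      (ins p Sᶜ).card ≤ K * (bd p S).card)
    (x : ℂ) (hX : (64 : ℝ) ^ (6 * (K + 1)) ≤ ‖x‖) :
    (32 : ℝ) ^ Fintype.card E * ‖∑ A ∈ univ.filter (fun A : Finset E => ∀ C ∈ cc p A, sm p C),
        x ^ A.card * (-1) ^ (Aᶜ).card * x ^ (cc p A).card‖ ≤ ‖x‖ ^ Fintype.card E := by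
  set n := Fintype.card E with hn
  have h1 : ∀ A ∈ univ.filter (fun A : Finset E => ∀ C ∈ cc p A, sm p C), (64 : ℝ) ^ n *
      ‖x ^ A.card * (-1) ^ (Aᶜ).card * x ^ (cc p A).card‖ ≤ ‖x‖ ^ n := by
    intro A hA
    have hA' : A ∈ fam p (univ : Finset V) := by
      rw [mem_fam, ins_univ, cin_univ]
      exact ⟨subset_univ _, (mem_filter.1 hA).2⟩
    obtain ⟨h4, h5⟩ := hB V E p K hE h3 hK univ A hA'
    rw [cin_univ, ins_univ, bd_univ, card_empty, add_zero, ← compl_eq_univ_sdiff] at h4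
    rw [ins_univ, bd_univ, card_empty, add_zero, add_zero, ← compl_eq_univ_sdiff, card_univ,
      ← hn] at h5
    have h6 : A.card + (Aᶜ).card = n := by rw [card_add_card_compl]
    rw [norm_mul, norm_mul, norm_pow, norm_pow, norm_pow, norm_neg, norm_one, one_pow, mul_one,
      ← pow_add]
    have h8 := pow_bound hX h4 h5 (by omega)
    have h9 : n - (Aᶜ).card + (cc p A).card = A.card + (cc p A).card := by omega
    rw [h9] at h8
    exact h8
  have h2 : (64 : ℝ) ^ n * ‖∑ A ∈ univ.filter (fun A : Finset E => ∀ C ∈ cc p A, sm p C),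
        x ^ A.card * (-1) ^ (Aᶜ).card * x ^ (cc p A).card‖ ≤ 2 ^ n * ‖x‖ ^ n := by
    calc (64 : ℝ) ^ n * ‖∑ A ∈ univ.filter (fun A : Finset E => ∀ C ∈ cc p A, sm p C),
          x ^ A.card * (-1) ^ (Aᶜ).card * x ^ (cc p A).card‖
        ≤ 64 ^ n * ∑ A ∈ univ.filter (fun A : Finset E => ∀ C ∈ cc p A, sm p C),
          ‖x ^ A.card * (-1) ^ (Aᶜ).card * x ^ (cc p A).card‖ := by
          gcongr
          exact norm_sum_le _ _
      _ = ∑ A ∈ univ.filter (fun A : Finset E => ∀ C ∈ cc p A, sm p C), 64 ^ n *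
          ‖x ^ A.card * (-1) ^ (Aᶜ).card * x ^ (cc p A).card‖ := mul_sum _ _ _
      _ ≤ ∑ A ∈ univ.filter (fun A : Finset E => ∀ C ∈ cc p A, sm p C), ‖x‖ ^ n := sum_le_sum h1
      _ = ((univ.filter (fun A : Finset E => ∀ C ∈ cc p A, sm p C)).card : ℝ) * ‖x‖ ^ n := by
          rw [sum_const, nsmul_eq_mul]
      _ ≤ 2 ^ n * ‖x‖ ^ n := by
          gcongr
          have : (univ.filter (fun A : Finset E => ∀ C ∈ cc p A, sm p C)).card ≤ 2 ^ n := by
            calc (univ.filter (fun A : Finset E => ∀ C ∈ cc p A, sm p C)).card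
                ≤ (univ : Finset (Finset E)).card := card_filter_le _ _
              _ = 2 ^ n := by rw [card_univ, Fintype.card_finset]
          exact_mod_cast this
  have h5 : (64 : ℝ) ^ n = 2 ^ n * 32 ^ n := by rw [← mul_pow]; norm_num
  rw [h5, mul_assoc] at h2
  exact le_of_mul_le_mul_left h2 (by positivity)

theorem mult_uw (hM : S_M) (p : E → V × V) (x : ℂ) : Mult (Adj p) (uw p x) := by
  intro X Y hXY hadj
  obtain ⟨h1, h2, h3⟩ := hM V E p X Y hXY hadj
  unfold uw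
  rw [h1, h2, h3 x]
  rw [show (ins p X).card + (ins p Y).card + ((bd p X).card + (bd p Y).card) =
    ((ins p X).card + (bd p X).card) + ((ins p Y).card + (bd p Y).card) by ring, pow_add, pow_add,
    div_mul_div_comm]
  congr 1
  ring

/-- the main theorem -/
theorem flow_ne (hC : S_CNT) (hR : S_REC) (hG : S_CNT → S_REC → S_GAS) (hT : S_T) (hF : S_F)
    (hM : S_M) (hB : S_B) (hN : S_N) (p : E → V × V) (K : ℕ)
    (h3 : ∀ S : Finset V, S.Nonempty → S ≠ univ → 3 ≤ (bd p S).card)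
    (hK : ∀ S : Finset V, (ins p S).card ≤ K * (bd p S).card ∨
      (ins p Sᶜ).card ≤ K * (bd p S).card)
    (x : ℂ) (hx : (2 : ℝ) ^ (37 * (K + 1)) ≤ ‖x‖) :
    ∑ A : Finset E, x ^ A.card * (-1) ^ (Aᶜ).card * x ^ (cc p A).card ≠ 0 := by
  have hX1 : (64 : ℝ) ^ (6 * (K + 1)) + 1 ≤ ‖x‖ := by
    refine le_trans ?_ hx
    have h1 : (64 : ℝ) ^ (6 * (K + 1)) = 2 ^ (36 * (K + 1)) := by
      rw [show (64 : ℝ) = 2 ^ 6 by norm_num, ← pow_mul]
      congr 1
      ring
    have h2 : (1 : ℝ) ≤ 2 ^ (36 * (K + 1)) := one_le_pow₀ (by norm_num)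
    have h4 : (2 : ℝ) ^ (36 * (K + 1)) * 2 ≤ 2 ^ (37 * (K + 1)) := by
      rw [← pow_succ]
      exact pow_le_pow_right₀ (by norm_num) (by omega)
    rw [h1]
    linarith
  have h64 : (64 : ℝ) ≤ (64 : ℝ) ^ (6 * (K + 1)) := by
    calc (64 : ℝ) = 64 ^ 1 := (pow_one _).symm
      _ ≤ _ := pow_le_pow_right₀ (by norm_num) (by omega)
  have hX : (64 : ℝ) ^ (6 * (K + 1)) ≤ ‖x‖ := by linarith
  have hYX : ‖x‖ - 1 ≤ ‖x - 1‖ := by
    have := norm_sub_norm_le x 1
    rwa [norm_one] at this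
  have hYX' : ‖x - 1‖ ≤ ‖x‖ + 1 := by
    have := norm_sub_le x 1
    rwa [norm_one] at this
  have hY : (64 : ℝ) ^ (6 * (K + 1)) ≤ ‖x - 1‖ := by linarith
  have hx0 : x ≠ 0 := by
    intro h
    rw [h, norm_zero] at hX
    linarith
  have hy0 : x - 1 ≠ 0 := by
    intro h
    rw [h, norm_zero] at hY
    linarith
  rcases isEmpty_or_nonempty E with hE | hE
  · have h1 : ∀ A : Finset E, A = ∅ := fun A => by
      rw [eq_empty_iff_forall_notMem]
      intro e
      exact (hE.false e).elim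
    have h2 : (univ : Finset (Finset E)) = {∅} := by
      ext A
      rw [mem_singleton]
      exact ⟨fun _ => h1 A, fun _ => mem_univ _⟩
    rw [h2, sum_singleton, h1 (∅ᶜ)]
    simp only [card_empty, pow_zero, one_mul]
    exact pow_ne_zero _ hx0
  · have hV : (univ : Finset V).Nonempty := ⟨(p hE.some).1, mem_univ _⟩
    have hQ := Q_id hT hF p x
    have h1 : ∀ W : Finset V, (x - 1) ^ (ins p Wᶜ).card * (-1) ^ (bd p W).card * q p x W =
        (x - 1) ^ Fintype.card E * uw p x W := by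
      intro W
      rw [← card_split p W, pow_add, uw]
      have := pow_ne_zero ((ins p W).card + (bd p W).card) hy0
      field_simp
    rw [sum_congr rfl (fun W _ => h1 W), ← mul_sum] at hQ
    have hgas := hG hC hR V (Adj p) (by
      intro a b ⟨e, he⟩
      exact ⟨e, he.symm⟩) (uw p x) (by
        unfold uw
        rw [q_empty, ins_empty, bd_empty]
        simp) (mult_uw hM p x)
      (fun W hW _ => norm_uw hB hN p K hE h3 hK x hY (by linarith) W hW) univ
    rw [powerset_univ, card_univ] at hgas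
    have hcard : Fintype.card V ≤ 2 * Fintype.card E := by
      have := hN V E p hE h3 univ hV
      rw [ins_univ, bd_univ, card_empty, add_zero, card_univ] at this
      have h2 : nb (Adj p) (univ : Finset V) = univ := by
        ext v
        simp [mem_nb]
      rwa [h2, card_univ] at this
    have hPn := norm_Pn hB p K hE h3 hK x hX
    rw [P_eq, hQ]
    set n := Fintype.card E with hn
    set Pn := ∑ A ∈ univ.filter (fun A : Finset E => ∀ C ∈ cc p A, sm p C),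
        x ^ A.card * (-1) ^ (Aᶜ).card * x ^ (cc p A).card with hPndef
    set U := ∑ W : Finset V, uw p x W with hU
    intro h0
    have h4 : x * ((x - 1) ^ n * U) = (x - 1) * Pn := by linear_combination h0
    have h5 : ‖x‖ * (‖x - 1‖ ^ n * ‖U‖) = ‖x - 1‖ * ‖Pn‖ := by
      rw [← norm_pow, ← norm_mul, ← norm_mul, h4, norm_mul]
    have h6 : (1 / 4 : ℝ) ^ n ≤ ‖U‖ := by
      refine le_trans ?_ hgas
      calc (1 / 4 : ℝ) ^ n = (1 / 2 : ℝ) ^ (2 * n) := by rw [pow_mul]; norm_num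
        _ ≤ (1 / 2 : ℝ) ^ Fintype.card V :=
          pow_le_pow_of_le_one (by norm_num) (by norm_num) hcard
    have h7 : ‖x‖ ^ n ≤ 2 ^ n * ‖x - 1‖ ^ n := by
      rw [← mul_pow]
      exact pow_le_pow_left₀ (norm_nonneg _) (by linarith) _
    have hY1 : 0 < ‖x - 1‖ ^ n := pow_pos (by linarith) _
    have h8 : (16 : ℝ) ^ n * ‖Pn‖ ≤ ‖x - 1‖ ^ n := by
      have h9 : (32 : ℝ) ^ n = 2 ^ n * 16 ^ n := by rw [← mul_pow]; norm_num
      rw [h9, mul_assoc] at hPn
      exact le_of_mul_le_mul_left (hPn.trans h7) (by positivity)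
    have h10 : ‖x‖ * (‖x - 1‖ ^ n * (1 / 4 : ℝ) ^ n) ≤ ‖x - 1‖ * ‖Pn‖ := by
      rw [← h5]
      gcongr
    have h11 : (16 : ℝ) ^ n * (‖x‖ * (‖x - 1‖ ^ n * (1 / 4 : ℝ) ^ n)) ≤
        ‖x - 1‖ * ‖x - 1‖ ^ n := by
      calc (16 : ℝ) ^ n * (‖x‖ * (‖x - 1‖ ^ n * (1 / 4 : ℝ) ^ n))
          ≤ (16 : ℝ) ^ n * (‖x - 1‖ * ‖Pn‖) := by gcongr
        _ = ‖x - 1‖ * ((16 : ℝ) ^ n * ‖Pn‖) := by ring
        _ ≤ ‖x - 1‖ * ‖x - 1‖ ^ n := by gcongr
    have h12 : (16 : ℝ) ^ n * (‖x‖ * (‖x - 1‖ ^ n * (1 / 4 : ℝ) ^ n)) =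
        (4 ^ n * ‖x‖) * ‖x - 1‖ ^ n := by
      have : (16 : ℝ) ^ n * (1 / 4 : ℝ) ^ n = 4 ^ n := by rw [← mul_pow]; norm_num
      calc (16 : ℝ) ^ n * (‖x‖ * (‖x - 1‖ ^ n * (1 / 4 : ℝ) ^ n))
          = ((16 : ℝ) ^ n * (1 / 4 : ℝ) ^ n) * ‖x‖ * ‖x - 1‖ ^ n := by ring
        _ = _ := by rw [this]
    rw [h12] at h11
    have h13 : (4 : ℝ) ^ n * ‖x‖ ≤ ‖x - 1‖ := le_of_mul_le_mul_right h11 hY1
    have h14 : (4 : ℝ) ≤ 4 ^ n := by
      have : 1 ≤ n := Fintype.card_pos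
      calc (4 : ℝ) = 4 ^ 1 := (pow_one _).symm
        _ ≤ 4 ^ n := pow_le_pow_right₀ (by norm_num) this
    have h15 : 4 * ‖x‖ ≤ (4 : ℝ) ^ n * ‖x‖ := by gcongr
    linarith

/-- the main theorem with the sign written by cardinalities -/
theorem flow_ne' (hC : S_CNT) (hR : S_REC) (hG : S_CNT → S_REC → S_GAS) (hT : S_T) (hF : S_F)
    (hM : S_M) (hB : S_B) (hN : S_N) (p : E → V × V) (K : ℕ)
    (h3 : ∀ S : Finset V, S.Nonempty → S ≠ univ → 3 ≤ (bd p S).card)
    (hK : ∀ S T : Finset V, (∀ v, v ∈ T ↔ v ∉ S) → (ins p S).card ≤ K * (bd p S).card ∨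
      (ins p T).card ≤ K * (bd p S).card)
    (x : ℂ) (hx : (2 : ℝ) ^ (37 * (K + 1)) ≤ ‖x‖) :
    ∑ A : Finset E, x ^ A.card * (-1) ^ (Fintype.card E - A.card) * x ^ (cc p A).card ≠ 0 := by
  have h := flow_ne hC hR hG hT hF hM hB hN p K h3
    (fun S => hK S Sᶜ (fun v => mem_compl)) x hx
  intro h0
  apply h
  rw [← h0]
  refine sum_congr rfl fun A _ => ?_
  rw [card_compl]

end

end Pool.Agent.Lib.MP_4a8162_co.FX
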