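import Pool.Agent.Lib.MP_4a8162_co.FX.Defs

set_option autoImplicit false

/-!
# MP_4a8162_co, FLOW ROOTS OF EXPANDERS: the pieces

Every file `Pool/Agent/Lib/MP_4a8162_co/FX/P_X.lean` imports this file and proves the statement
`S_X`. All files use `open Finset` and `open scoped Classical`; no `DecidableEq` instances are
assumed anywhere.
-/

namespace Pool.Agent.Lib.MP_4a8162_co.FX

open Finset
open scoped Classical

/-- CNT. For a connected `K` let `F K` be the family of all `U` with `U ∩ nb K = K`; it has
`2 ^ (n - |nb K|)` members. The families of different connected sets `K`, `K'` which contain `v` are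
disjoint: if `U` is in both and `K'` is not contained in `K`, then `B = K' ∩ K` is a nonempty proper
part of `K'`, so there are `x ∈ B` and `y ∈ K' \ B` with `adj x y`; now `y ∈ nb K` and `y ∈ U`, so
`y ∈ K`, a contradiction. Hence the sum of `2 ^ (n - |nb K|)` is at most `2 ^ n`. -/
def S_CNT : Prop :=
  ∀ (Ω : Type) [Fintype Ω] (adj : Ω → Ω → Prop) (v : Ω),
    ∑ K ∈ cs adj v, (1 / 2 : ℝ) ^ (nb adj K).card ≤ 1

/-- REC. The sets `W ⊆ insert v S` with `v ∉ W` are the subsets of `S`. If `v ∈ W`, let `K` be the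
smallest set with `v ∈ K ⊆ W` such that no element of `K` is adjacent to an element of `W \ K`; it is
connected (if `B` is a nonempty proper part of `K` without neighbours in `K \ B`, then `B` or `K \ B`
is smaller), and it is the only connected set with `v ∈ K ⊆ W` without neighbours in `W \ K` (for two
of them, `K ∩ K'` is a nonempty part of `K` without neighbours in `K \ K'`). So `W ↦ (K, W \ K)` is a
bijection from the `W` which contain `v` to the pairs of a connected set `K` with
`v ∈ K ⊆ insert v S` and a subset of `S \ nb K`, and `u W = u K * u (W \ K)`. -/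
def S_REC : Prop :=
  ∀ (Ω : Type) [Fintype Ω] (adj : Ω → Ω → Prop), (∀ x y, adj x y → adj y x) →
    ∀ (u : Finset Ω → ℂ), Mult adj u → ∀ (S : Finset Ω) (v : Ω), v ∉ S →
      ∑ W ∈ (insert v S).powerset, u W = ∑ W ∈ S.powerset, u W +
        ∑ K ∈ (cs adj v).filter (fun K => K ⊆ insert v S),
          u K * ∑ W ∈ (S \ nb adj K).powerset, u W

/-- GAS (the theorem is `P_GAS : S_CNT → S_REC → S_GAS`). Write `Z S` for the sum over the subsets
of `S`; `Z ∅ = 1`. By strong induction on `|S|`: for all `T ⊆ S`, `|Z T| ≤ 2 ^ |S \ T| |Z S|`. It is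
enough to show `|Z (S \ {v})| ≤ 2 |Z S|` for every `v ∈ S` (if `T ≠ S`, take `v ∈ S \ T` and use the
induction hypothesis for `T ⊆ S \ {v}`). By REC, `|Z S - Z (S \ {v})|` is at most the sum over the
connected `K` with `v ∈ K ⊆ S` of `|u K| |Z ((S \ {v}) \ nb K)|`, and by the induction hypothesis for
`S \ {v}` this is at most the sum of
`(1/4) ^ |nb K| 2 ^ (|nb K| - 1) |Z (S \ {v})| = (1/2) (1/2) ^ |nb K| |Z (S \ {v})|` (here
`v ∈ nb K`, so at most `|nb K| - 1` elements of `S \ {v}` are in `nb K`), by CNT at most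
`(1/2) |Z (S \ {v})|`. The claim is the case `T = ∅`. -/
def S_GAS : Prop :=
  ∀ (Ω : Type) [Fintype Ω] (adj : Ω → Ω → Prop), (∀ x y, adj x y → adj y x) →
    ∀ (u : Finset Ω → ℂ), u ∅ = 1 → Mult adj u →
      (∀ K : Finset Ω, K.Nonempty → Conn adj K → ‖u K‖ ≤ (1 / 4 : ℝ) ^ (nb adj K).card) →
      ∀ S : Finset Ω, (1 / 2 : ℝ) ^ S.card ≤ ‖∑ W ∈ S.powerset, u W‖

/-- CARD. `Rel p A` is the reachability relation of `graphOf p A` (an edge of `A` with different ends
is an edge of `graphOf p A` and conversely), and the components `cl p A v` correspond to the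
connected components. -/
def S_CARD : Prop :=
  ∀ (V E : Type) [Fintype V] [Fintype E] (p : E → V × V) (A : Finset E),
    Nat.card (graphOf p A).ConnectedComponent = (cc p A).card

/-- T. Write `x = 1 + (x - 1)`: the left side is the sum of `(x - 1) ^ |T|` over all sets `T` of small
components of `A`. The map `T ↦ W = ⋃ T` is a bijection onto the closed sets `W` such that all
components of `A` inside `W` are small (the inverse map is `W ↦ cin p A W`; a closed set is the
union of the components inside it, by `cl_subset`). -/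
def S_T : Prop :=
  ∀ (V E : Type) [Fintype V] [Fintype E] (p : E → V × V) (A : Finset E) (x : ℂ),
    x ^ ((cc p A).filter (fun C => sm p C)).card =
      ∑ W ∈ univ.filter (fun W : Finset V => Closed p A W ∧ ∀ C ∈ cin p A W, sm p C),
        (x - 1) ^ (cin p A W).card

/-- F. The sets `A` for which `W` is closed are the disjoint unions `A₁ ∪ A₂` with `A₁ ⊆ ins p W`
and `A₂ ⊆ ins p Wᶜ`, and `cin p A W = cin p A₁ W` (by `cl_inter`, with `A ∩ ins p W = A₁`). The
complement of `A` is the disjoint union of `ins p W \ A₁`, `ins p Wᶜ \ A₂` and `bd p W`. The sum over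
`A₂` of `x ^ |A₂| (-1) ^ |ins p Wᶜ \ A₂|` is `(x - 1) ^ |ins p Wᶜ|` by the binomial theorem. -/
def S_F : Prop :=
  ∀ (V E : Type) [Fintype V] [Fintype E] (p : E → V × V) (W : Finset V) (x : ℂ),
    ∑ A ∈ univ.filter (fun A : Finset E => Closed p A W ∧ ∀ C ∈ cin p A W, sm p C),
        x ^ A.card * (-1) ^ (Aᶜ).card * (x - 1) ^ (cin p A W).card =
      (x - 1) ^ (ins p Wᶜ).card * (-1) ^ (bd p W).card * q p x W

/-- M. If no edge joins the disjoint sets `X` and `Y`, then `ins p (X ∪ Y)` is the disjoint union of
`ins p X` and `ins p Y`, `bd p (X ∪ Y)` is the disjoint union of `bd p X` and `bd p Y`, and for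
`A ⊆ ins p (X ∪ Y)` the family `cin p A (X ∪ Y)` is the disjoint union of
`cin p (A ∩ ins p X) X` and `cin p (A ∩ ins p Y) Y` (by `cl_inter`). So `q` is multiplicative. -/
def S_M : Prop :=
  ∀ (V E : Type) [Fintype V] [Fintype E] (p : E → V × V) (X Y : Finset V), Disjoint X Y →
    (∀ x ∈ X, ∀ y ∈ Y, ¬ Adj p x y) →
      (ins p (X ∪ Y)).card = (ins p X).card + (ins p Y).card ∧
      (bd p (X ∪ Y)).card = (bd p X).card + (bd p Y).card ∧
      ∀ z : ℂ, q p z (X ∪ Y) = q p z X * q p z Y

/-- B. Let `E` be nonempty. A small set `C` is not `univ` (because `ins p univ = univ` and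
`ins p ∅ = ∅`), so a small nonempty `C` has `3 ≤ |bd C|`, and `|ins C| ≤ K |bd C|` (if
`|ins Cᶜ| ≤ K |bd C|` then use that `C` is small). Let `m = |ins W \ A| + |bd W|`. The components of
`A` inside `W` cover `W` (`W` is closed for `A ⊆ ins p W`), so every edge with an end in `W` is in
`ins C` or in `bd C` for one of them: `|ins W| + |bd W| ≤ ∑ (|ins C| + |bd C|) ≤ (K + 1) ∑ |bd C|`.
An edge of `bd C` is not in `A` and has an end in `W`, so it is in `ins W \ A` or in `bd W`, and
every edge is in `bd C` for at most two components `C` (those of its ends): `∑ |bd C| ≤ 2 m`. -/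
def S_B : Prop :=
  ∀ (V E : Type) [Fintype V] [Fintype E] (p : E → V × V) (K : ℕ), Nonempty E →
    (∀ S : Finset V, S.Nonempty → S ≠ univ → 3 ≤ (bd p S).card) →
    (∀ S : Finset V, (ins p S).card ≤ K * (bd p S).card ∨ (ins p Sᶜ).card ≤ K * (bd p S).card) →
    ∀ (W : Finset V), ∀ A ∈ fam p W,
      3 * (cin p A W).card ≤ 2 * ((ins p W \ A).card + (bd p W).card) ∧
      (ins p W).card + (bd p W).card ≤
        2 * (K + 1) * ((ins p W \ A).card + (bd p W).card)

/-- N. Let `E` be nonempty. If `V` has one element then `nb W` has at most one element and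
`ins p W` is `E` for `W` nonempty. Otherwise every vertex `v` has `3 ≤ |bd {v}|`, and counting the
edges at the vertices of `W` gives `3 |W| ≤ 2 |ins W| + |bd W|`; a vertex of `nb W` outside `W` is the
end of an edge of `bd W`, and different vertices give different edges, so `|nb W| ≤ |W| + |bd W|`. -/
def S_N : Prop :=
  ∀ (V E : Type) [Fintype V] [Fintype E] (p : E → V × V), Nonempty E →
    (∀ S : Finset V, S.Nonempty → S ≠ univ → 3 ≤ (bd p S).card) →
    ∀ (W : Finset V), W.Nonempty →
      (nb (Adj p) W).card ≤ 2 * ((ins p W).card + (bd p W).card)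

end Pool.Agent.Lib.MP_4a8162_co.FX
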