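import Mathlib
import Pool.Agent.Lib.MP_4a8162_co.FX.Stm

set_option autoImplicit false

/-!
# MP_4a8162_co, FLOW ROOTS OF EXPANDERS: number of components
-/

namespace Pool.Agent.Lib.MP_4a8162_co.FX

open Finset
open scoped Classical

theorem CARD_reachable {V E : Type} [Fintype V] [Fintype E] (p : E → V × V) (A : Finset E)
    (u v : V) : (graphOf p A).Reachable u v ↔ Rel p A u v := by
  constructor
  · rintro ⟨w⟩
    induction w with
    | nil => exact Relation.EqvGen.refl _
    | cons h _ ih =>
      refine Relation.EqvGen.trans _ _ _ ?_ ih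
      have h1 := (SimpleGraph.fromRel_adj _ _ _).1 h
      rcases h1.2 with h2 | h2
      · exact Relation.EqvGen.rel _ _ h2
      · exact Relation.EqvGen.symm _ _ (Relation.EqvGen.rel _ _ h2)
  · intro h
    induction h with
    | rel x y h =>
      by_cases hxy : x = y
      · rw [hxy]
      · exact SimpleGraph.Adj.reachable ((SimpleGraph.fromRel_adj _ _ _).2 ⟨hxy, Or.inl h⟩)
    | refl x => exact SimpleGraph.Reachable.refl x
    | symm x y _ ih => exact ih.symm
    | trans x y z _ _ ih1 ih2 => exact ih1.trans ih2

theorem P_CARD : S_CARD := by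
  intro V E _ _ p A
  let f : V → {C // C ∈ cc p A} := fun v => ⟨cl p A v, mem_cc.2 ⟨v, rfl⟩⟩
  have hf : ∀ v w : V, (graphOf p A).Reachable v w → f v = f w := by
    intro v w h
    apply Subtype.ext
    exact (cl_eq_of_mem (mem_cl.2 ((CARD_reachable p A v w).1 h))).symm
  let g : (graphOf p A).ConnectedComponent → {C // C ∈ cc p A} := Quot.lift f hf
  have hg : Function.Bijective g := by
    constructor
    · intro a b
      induction a using Quot.ind with
      | mk v =>
        induction b using Quot.ind with
        | mk w =>
          intro h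
          have h1 : f v = f w := h
          have h2 : cl p A v = cl p A w := congrArg Subtype.val h1
          apply Quot.sound
          rw [CARD_reachable]
          apply mem_cl.1
          rw [h2]
          exact self_mem_cl p A w
    · rintro ⟨C, hC⟩
      obtain ⟨v, rfl⟩ := mem_cc.1 hC
      exact ⟨Quot.mk _ v, rfl⟩
  rw [Nat.card_congr (Equiv.ofBijective g hg), Nat.card_eq_fintype_card, Fintype.card_coe]

end Pool.Agent.Lib.MP_4a8162_co.FX
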