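import Pool.Agent.Lib.MP_4a8162_co.FX.P_GAS
import Pool.Agent.Lib.MP_4a8162_co.FX.P_REC
import Pool.Agent.Lib.MP_4a8162_co.FX.P_CNT
import Pool.Agent.Lib.MP_4a8162_co.Root

set_option autoImplicit false

/-!
# MP_4a8162_co: matroids represented by sparse matrices
-/

namespace Pool.Agent.Lib.MP_4a8162_co.FX

open Finset
open scoped Classical

variable {Ω : Type} [Fintype Ω]

/-- a rank function which is additive on sets without adjacent elements and at least
`|X| / D` -/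
theorem sparse_gas (adj : Ω → Ω → Prop) (hs : ∀ x y, adj x y → adj y x) (r : Finset Ω → ℕ)
    (D : ℕ) (h0 : r ∅ = 0)
    (hadd : ∀ X Y : Finset Ω, Disjoint X Y → (∀ x ∈ X, ∀ y ∈ Y, ¬ adj x y) →
      r (X ∪ Y) = r X + r Y)
    (hr : ∀ X, X.card ≤ D * r X) (hnb : ∀ X, (nb adj X).card ≤ D * X.card)
    (x : ℂ) (hx : (4 : ℝ) ^ (D * D) ≤ ‖x‖) :
    ∑ X : Finset Ω, (-1) ^ X.card * (x⁻¹) ^ r X ≠ 0 := by
  have h1 : Mult adj (fun X => (-1) ^ X.card * (x⁻¹) ^ r X) := by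
    intro X Y hXY h
    simp only
    rw [card_union_of_disjoint hXY, hadd X Y hXY h, pow_add, pow_add]
    ring
  have hx1 : (1 : ℝ) ≤ ‖x‖ := le_trans (one_le_pow₀ (by norm_num)) hx
  have h2 : ∀ K : Finset Ω, K.Nonempty → Conn adj K →
      ‖(-1) ^ K.card * (x⁻¹) ^ r K‖ ≤ (1 / 4 : ℝ) ^ (nb adj K).card := by
    intro K _ _
    rw [norm_mul, norm_pow, norm_neg, norm_one, one_pow, one_mul, norm_pow, norm_inv]
    have h3 : (nb adj K).card ≤ D * D * r K := by
      calc (nb adj K).card ≤ D * K.card := hnb K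
        _ ≤ D * (D * r K) := Nat.mul_le_mul_left _ (hr K)
        _ = D * D * r K := by ring
    rw [inv_pow, one_div, inv_pow]
    apply inv_anti₀ (by positivity)
    calc (4 : ℝ) ^ (nb adj K).card ≤ 4 ^ (D * D * r K) := pow_le_pow_right₀ (by norm_num) h3
      _ = (4 ^ (D * D)) ^ r K := pow_mul _ _ _
      _ ≤ ‖x‖ ^ r K := pow_le_pow_left₀ (by positivity) hx _
  have h3 := P_GAS P_CNT P_REC Ω adj hs (fun X => (-1) ^ X.card * (x⁻¹) ^ r X)
    (by simp [h0]) h1 h2 univ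
  rw [powerset_univ] at h3
  intro h4
  rw [h4, norm_zero] at h3
  exact absurd h3 (not_le.2 (by positivity))

end Pool.Agent.Lib.MP_4a8162_co.FX
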